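import Mathlib

/-!
# Low rank plus sparse decompositions of matrices
-/

set_option autoImplicit false
open Matrix Finset
open scoped Classical

namespace Pool.Agent.H85.Rigid

variable {K : Type} [Field K]

/-- `Approx r t A`: the matrix `A` is the sum of a matrix of rank at most `r` and a matrix with at
most `t` nonzero entries in every row and in every column. -/
def Approx {I J : Type} [Fintype I] [Fintype J] (r t : ℝ) (A : Matrix I J K) : Prop :=
  ∃ L S : Matrix I J K, A = L + S ∧ (L.rank : ℝ) ≤ r ∧
    (∀ i, ((univ.filter fun j => S i j ≠ 0).card : ℝ) ≤ t) ∧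
    (∀ j, ((univ.filter fun i => S i j ≠ 0).card : ℝ) ≤ t)

section
variable {I J L : Type} [Fintype I] [Fintype J] [Fintype L]

omit [Fintype I] in
lemma rank_add_le' (A B : Matrix I J K) : (A + B).rank ≤ A.rank + B.rank := by
  unfold Matrix.rank
  have h : LinearMap.range (A + B).mulVecLin ≤
      LinearMap.range A.mulVecLin ⊔ LinearMap.range B.mulVecLin := by
    rintro _ ⟨v, rfl⟩
    rw [Matrix.mulVecLin_add, LinearMap.add_apply]
    exact Submodule.add_mem_sup ⟨v, rfl⟩ ⟨v, rfl⟩
  calc Module.finrank K (LinearMap.range (A + B).mulVecLin)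
      ≤ Module.finrank K
          (LinearMap.range A.mulVecLin ⊔ LinearMap.range B.mulVecLin : Submodule K (I → K)) :=
        Submodule.finrank_mono h
    _ ≤ _ := Submodule.finrank_add_le_finrank_add_finrank _ _

omit [Fintype I] [Fintype J] in
/-- Change of `Fintype` instances. -/
lemma Approx.inst {i1 i1' : Fintype I} {i2 i2' : Fintype J} {r t : ℝ} {A : Matrix I J K}
    (h : @Approx K _ I J i1 i2 r t A) : @Approx K _ I J i1' i2' r t A := by
  obtain rfl := Subsingleton.elim i1 i1'
  obtain rfl := Subsingleton.elim i2 i2'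
  exact h

lemma Approx.mono {r t r' t' : ℝ} {A : Matrix I J K} (h : Approx r t A) (hr : r ≤ r')
    (ht : t ≤ t') : Approx r' t' A := by
  obtain ⟨L, S, h1, h2, h3, h4⟩ := h
  exact ⟨L, S, h1, h2.trans hr, fun i => (h3 i).trans ht, fun j => (h4 j).trans ht⟩

lemma Approx.transpose {r t : ℝ} {A : Matrix I J K} (h : Approx r t A) : Approx r t Aᵀ := by
  obtain ⟨L, S, h1, h2, h3, h4⟩ := h
  refine ⟨Lᵀ, Sᵀ, by rw [h1, transpose_add], ?_, h4, h3⟩
  rw [rank_transpose]; exact h2

lemma Approx.mul {r₁ t₁ r₂ t₂ : ℝ} {A : Matrix I J K} {B : Matrix J L K} (ht₁ : 0 ≤ t₁)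
    (ht₂ : 0 ≤ t₂) (hA : Approx r₁ t₁ A) (hB : Approx r₂ t₂ B) :
    Approx (r₁ + r₂) (t₁ * t₂) (A * B) := by
  obtain ⟨L1, S1, hA1, hA2, hA3, hA4⟩ := hA
  obtain ⟨L2, S2, hB1, hB2, hB3, hB4⟩ := hB
  refine ⟨L1 * B + S1 * L2, S1 * S2, ?_, ?_, ?_, ?_⟩
  · rw [hA1, hB1]
    simp only [Matrix.add_mul, Matrix.mul_add]
    abel
  · have h1 : (L1 * B).rank ≤ L1.rank := rank_mul_le_left _ _
    have h2 : (S1 * L2).rank ≤ L2.rank := rank_mul_le_right _ _
    have h3 := rank_add_le' (L1 * B) (S1 * L2)
    have h4 : ((L1 * B + S1 * L2).rank : ℝ) ≤ (L1.rank : ℝ) + L2.rank := by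
      exact_mod_cast h3.trans (add_le_add h1 h2)
    linarith
  · intro i
    have hsub : (univ.filter fun l => (S1 * S2) i l ≠ 0) ⊆
        (univ.filter fun j => S1 i j ≠ 0).biUnion
          (fun j => univ.filter fun l => S2 j l ≠ 0) := by
      intro l hl
      simp only [mem_filter, mem_univ, true_and, mem_biUnion] at hl ⊢
      by_contra hcon
      push Not at hcon
      apply hl
      rw [Matrix.mul_apply]
      refine Finset.sum_eq_zero fun j _ => ?_
      by_cases hj : S1 i j = 0
      · rw [hj, zero_mul]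
      · rw [hcon j hj, mul_zero]
    calc ((univ.filter fun l => (S1 * S2) i l ≠ 0).card : ℝ)
        ≤ (((univ.filter fun j => S1 i j ≠ 0).biUnion
          (fun j => univ.filter fun l => S2 j l ≠ 0)).card : ℝ) := by
            exact_mod_cast card_le_card hsub
      _ ≤ ((∑ j ∈ univ.filter fun j => S1 i j ≠ 0,
            (univ.filter fun l => S2 j l ≠ 0).card : ℕ) : ℝ) := by
            exact_mod_cast card_biUnion_le
      _ = ∑ j ∈ univ.filter fun j => S1 i j ≠ 0,
            ((univ.filter fun l => S2 j l ≠ 0).card : ℝ) := by push_cast; rfl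
      _ ≤ ∑ j ∈ univ.filter fun j => S1 i j ≠ 0, t₂ := Finset.sum_le_sum fun j _ => hB3 j
      _ = ((univ.filter fun j => S1 i j ≠ 0).card : ℝ) * t₂ := by rw [sum_const, nsmul_eq_mul]
      _ ≤ t₁ * t₂ := mul_le_mul_of_nonneg_right (hA3 i) ht₂
  · intro l
    have hsub : (univ.filter fun i => (S1 * S2) i l ≠ 0) ⊆
        (univ.filter fun j => S2 j l ≠ 0).biUnion
          (fun j => univ.filter fun i => S1 i j ≠ 0) := by
      intro i hi
      simp only [mem_filter, mem_univ, true_and, mem_biUnion] at hi ⊢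
      by_contra hcon
      push Not at hcon
      apply hi
      rw [Matrix.mul_apply]
      refine Finset.sum_eq_zero fun j _ => ?_
      by_cases hj : S2 j l = 0
      · rw [hj, mul_zero]
      · rw [hcon j hj, zero_mul]
    calc ((univ.filter fun i => (S1 * S2) i l ≠ 0).card : ℝ)
        ≤ (((univ.filter fun j => S2 j l ≠ 0).biUnion
          (fun j => univ.filter fun i => S1 i j ≠ 0)).card : ℝ) := by
            exact_mod_cast card_le_card hsub
      _ ≤ ((∑ j ∈ univ.filter fun j => S2 j l ≠ 0,
            (univ.filter fun i => S1 i j ≠ 0).card : ℕ) : ℝ) := by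
            exact_mod_cast card_biUnion_le
      _ = ∑ j ∈ univ.filter fun j => S2 j l ≠ 0,
            ((univ.filter fun i => S1 i j ≠ 0).card : ℝ) := by push_cast; rfl
      _ ≤ ∑ j ∈ univ.filter fun j => S2 j l ≠ 0, t₁ := Finset.sum_le_sum fun j _ => hA4 j
      _ = ((univ.filter fun j => S2 j l ≠ 0).card : ℝ) * t₁ := by rw [sum_const, nsmul_eq_mul]
      _ ≤ t₂ * t₁ := mul_le_mul_of_nonneg_right (hB4 l) ht₁
      _ = t₁ * t₂ := mul_comm _ _

lemma Approx.one [DecidableEq I] : Approx 0 1 (1 : Matrix I I K) := by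
  refine ⟨0, 1, by simp, by simp, ?_, ?_⟩
  · intro i
    have : (univ.filter fun j => (1 : Matrix I I K) i j ≠ 0) ⊆ {i} := by
      intro j hj
      simp only [mem_filter, mem_univ, true_and, mem_singleton] at hj ⊢
      by_contra h
      exact hj (Matrix.one_apply_ne (fun h' => h h'.symm))
    have h2 := card_le_card this
    rw [card_singleton] at h2
    exact_mod_cast h2
  · intro i
    have : (univ.filter fun j => (1 : Matrix I I K) j i ≠ 0) ⊆ {i} := by
      intro j hj
      simp only [mem_filter, mem_univ, true_and, mem_singleton] at hj ⊢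
      by_contra h
      exact hj (Matrix.one_apply_ne h)
    have h2 := card_le_card this
    rw [card_singleton] at h2
    exact_mod_cast h2

lemma Approx.diagonal [DecidableEq I] (w : I → K) : Approx 0 1 (Matrix.diagonal w) := by
  refine ⟨0, Matrix.diagonal w, by simp, by simp, ?_, ?_⟩
  · intro i
    have : (univ.filter fun j => (Matrix.diagonal w) i j ≠ 0) ⊆ {i} := by
      intro j hj
      simp only [mem_filter, mem_univ, true_and, mem_singleton] at hj ⊢
      by_contra h
      exact hj (Matrix.diagonal_apply_ne _ (fun h' => h h'.symm))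
    have h2 := card_le_card this
    rw [card_singleton] at h2
    exact_mod_cast h2
  · intro i
    have : (univ.filter fun j => (Matrix.diagonal w) j i ≠ 0) ⊆ {i} := by
      intro j hj
      simp only [mem_filter, mem_univ, true_and, mem_singleton] at hj ⊢
      by_contra h
      exact hj (Matrix.diagonal_apply_ne _ h)
    have h2 := card_le_card this
    rw [card_singleton] at h2
    exact_mod_cast h2

/-- Every matrix is trivially dense. -/
lemma Approx.dense {t : ℝ} (A : Matrix I J K) (hI : (Fintype.card I : ℝ) ≤ t)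
    (hJ : (Fintype.card J : ℝ) ≤ t) : Approx 0 t A := by
  refine ⟨0, A, by simp, by simp, ?_, ?_⟩
  · intro i
    refine le_trans ?_ hJ
    exact_mod_cast card_le_univ _
  · intro j
    refine le_trans ?_ hI
    exact_mod_cast card_le_univ _

variable {I' J' : Type} [Fintype I'] [Fintype J']

lemma Approx.submatrix {r t : ℝ} {A : Matrix I J K} (h : Approx r t A) (f : I' → I) (g : J' → J)
    (hf : Function.Injective f) (hg : Function.Injective g) : Approx r t (A.submatrix f g) := by
  obtain ⟨L, S, h1, h2, h3, h4⟩ := h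
  refine ⟨L.submatrix f g, S.submatrix f g, ?_, ?_, ?_, ?_⟩
  · rw [h1]; rfl
  · refine le_trans ?_ h2
    exact_mod_cast rank_submatrix_le L f g
  · intro i
    refine le_trans ?_ (h3 (f i))
    have : ((univ.filter fun j => S.submatrix f g i j ≠ 0).map ⟨g, hg⟩) ⊆
        (univ.filter fun j => S (f i) j ≠ 0) := by
      intro j hj
      rw [mem_map] at hj
      obtain ⟨a, ha, rfl⟩ := hj
      have h6 := (mem_filter.mp ha).2
      exact mem_filter.mpr ⟨mem_univ _, h6⟩
    have h5 := card_le_card this
    rw [card_map] at h5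
    exact_mod_cast h5
  · intro j
    refine le_trans ?_ (h4 (g j))
    have : ((univ.filter fun i => S.submatrix f g i j ≠ 0).map ⟨f, hf⟩) ⊆
        (univ.filter fun i => S i (g j) ≠ 0) := by
      intro i hi
      rw [mem_map] at hi
      obtain ⟨a, ha, rfl⟩ := hi
      have h6 := (mem_filter.mp ha).2
      exact mem_filter.mpr ⟨mem_univ _, h6⟩
    have h5 := card_le_card this
    rw [card_map] at h5
    exact_mod_cast h5

end

section kron
variable {I J I' J' : Type} [Fintype I] [Fintype J] [Fintype I'] [Fintype J']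

/-- The Kronecker product. -/
def kron (A : Matrix I J K) (B : Matrix I' J' K) : Matrix (I × I') (J × J') K :=
  fun x y => A x.1 y.1 * B x.2 y.2

omit [Fintype I] in
lemma rank_sum_le' {ι : Type} (s : Finset ι) (A : ι → Matrix I J K) :
    (∑ i ∈ s, A i).rank ≤ ∑ i ∈ s, (A i).rank := by
  induction s using Finset.induction_on with
  | empty => simp
  | insert a s ha ih =>
    rw [sum_insert ha, sum_insert ha]
    exact (rank_add_le' _ _).trans (Nat.add_le_add_left ih _)

lemma rank_kron_le_left (A : Matrix I J K) (B : Matrix I' J' K) :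
    (kron A B).rank ≤ A.rank * Fintype.card J' := by
  have h : kron A B = ∑ j' : J', (Matrix.diagonal (fun x : I × I' => B x.2 j')) *
      (A.submatrix (Prod.fst : I × I' → I) (Prod.fst : J × J' → J)) *
        (Matrix.diagonal (fun y : J × J' => if y.2 = j' then (1 : K) else 0)) := by
    ext x y
    rw [Matrix.sum_apply]
    simp only [Matrix.mul_diagonal, Matrix.diagonal_mul, Matrix.submatrix_apply, mul_ite, mul_one,
      mul_zero]
    rw [Finset.sum_ite_eq]
    simp [kron, mul_comm]
  rw [h]
  refine (rank_sum_le' _ _).trans ?_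
  calc _ ≤ ∑ _j' : J', A.rank := by
        refine Finset.sum_le_sum fun j' _ => ?_
        exact (rank_mul_le_left _ _).trans ((rank_mul_le_right _ _).trans (rank_submatrix_le _ _ _))
    _ = A.rank * Fintype.card J' := by rw [sum_const, card_univ, smul_eq_mul, mul_comm]

lemma rank_kron_le_right (A : Matrix I J K) (B : Matrix I' J' K) :
    (kron A B).rank ≤ Fintype.card J * B.rank := by
  have h : kron A B = (kron B A).submatrix Prod.swap Prod.swap := by
    ext x y
    simp [kron, mul_comm]
  rw [h, mul_comm]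
  exact (rank_submatrix_le _ _ _).trans (rank_kron_le_left B A)

lemma card_filter_kron_row_le (A : Matrix I J K) (B : Matrix I' J' K) (x : I × I') :
    (univ.filter fun y => kron A B x y ≠ 0).card ≤
      (univ.filter fun j => A x.1 j ≠ 0).card * (univ.filter fun j => B x.2 j ≠ 0).card := by
  rw [← card_product]
  refine card_le_card ?_
  intro y hy
  have h6 : A x.1 y.1 * B x.2 y.2 ≠ 0 := (mem_filter.mp hy).2
  simp only [mem_filter, mem_univ, true_and, mem_product]
  exact ⟨left_ne_zero_of_mul h6, right_ne_zero_of_mul h6⟩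

lemma card_filter_kron_col_le (A : Matrix I J K) (B : Matrix I' J' K) (y : J × J') :
    (univ.filter fun x => kron A B x y ≠ 0).card ≤
      (univ.filter fun i => A i y.1 ≠ 0).card * (univ.filter fun i => B i y.2 ≠ 0).card := by
  rw [← card_product]
  refine card_le_card ?_
  intro x hx
  have h6 : A x.1 y.1 * B x.2 y.2 ≠ 0 := (mem_filter.mp hx).2
  simp only [mem_filter, mem_univ, true_and, mem_product]
  exact ⟨left_ne_zero_of_mul h6, right_ne_zero_of_mul h6⟩

/-- Kronecker products: only the number of columns of the other factor enters. -/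
lemma Approx.kron {r₁ t₁ r₂ t₂ : ℝ} {A : Matrix I J K} {B : Matrix I' J' K} (ht₁ : 0 ≤ t₁)
    (hA : Approx r₁ t₁ A) (hB : Approx r₂ t₂ B) :
    Approx (r₁ * Fintype.card J' + Fintype.card J * r₂) (t₁ * t₂) (kron A B) := by
  obtain ⟨L1, S1, hA1, hA2, hA3, hA4⟩ := hA
  obtain ⟨L2, S2, hB1, hB2, hB3, hB4⟩ := hB
  refine ⟨Rigid.kron L1 B + Rigid.kron S1 L2, Rigid.kron S1 S2, ?_, ?_, ?_, ?_⟩
  · rw [hA1, hB1]
    ext x y
    simp only [Rigid.kron, Matrix.add_apply]
    ring
  · have h1 := rank_kron_le_left L1 B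
    have h2 := rank_kron_le_right S1 L2
    have h3 := rank_add_le' (Rigid.kron L1 B) (Rigid.kron S1 L2)
    have h4 : ((Rigid.kron L1 B + Rigid.kron S1 L2).rank : ℝ) ≤
        (L1.rank : ℝ) * Fintype.card J' + Fintype.card J * L2.rank := by
      exact_mod_cast h3.trans (add_le_add h1 h2)
    have h5 : (L1.rank : ℝ) * Fintype.card J' ≤ r₁ * Fintype.card J' :=
      mul_le_mul_of_nonneg_right hA2 (by positivity)
    have h6 : (Fintype.card J : ℝ) * L2.rank ≤ Fintype.card J * r₂ :=
      mul_le_mul_of_nonneg_left hB2 (by positivity)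
    linarith
  · intro x
    calc ((univ.filter fun y => Rigid.kron S1 S2 x y ≠ 0).card : ℝ)
        ≤ ((univ.filter fun j => S1 x.1 j ≠ 0).card : ℝ) *
            (univ.filter fun j => S2 x.2 j ≠ 0).card := by
          exact_mod_cast card_filter_kron_row_le S1 S2 x
      _ ≤ t₁ * t₂ := mul_le_mul (hA3 _) (hB3 _) (by positivity) ht₁
  · intro y
    calc ((univ.filter fun x => Rigid.kron S1 S2 x y ≠ 0).card : ℝ)
        ≤ ((univ.filter fun i => S1 i y.1 ≠ 0).card : ℝ) *
            (univ.filter fun i => S2 i y.2 ≠ 0).card := by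
          exact_mod_cast card_filter_kron_col_le S1 S2 y
      _ ≤ t₁ * t₂ := mul_le_mul (hA4 _) (hB4 _) (by positivity) ht₁

end kron

end Pool.Agent.H85.Rigid
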