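import Pool.Agent.H85.Rigid.Fourier

/-!
# Descent of the decompositions to the rational numbers
-/

set_option autoImplicit false
open Matrix Finset
open scoped Classical

namespace Pool.Agent.H85.Rigid

lemma descent {K : Type} [Field K] [Algebra ℚ K] [FiniteDimensional ℚ K] {I J : Type} [Fintype I]
    [Fintype J] {r t : ℝ} (M : Matrix I J ℚ) (h : Approx r t (M.map (algebraMap ℚ K))) :
    Approx (Module.finrank ℚ K * r) t M := by
  obtain ⟨L, S, h1, h2, h3, h4⟩ := h
  obtain ⟨p, hp⟩ := (Algebra.linearMap ℚ K).exists_leftInverse_of_injective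
    (LinearMap.ker_eq_bot.mpr (algebraMap ℚ K).injective)
  have hp' : ∀ q : ℚ, p (algebraMap ℚ K q) = q := fun q => LinearMap.congr_fun hp q
  refine ⟨L.map p, S.map p, ?_, ?_, ?_, ?_⟩
  · ext i j
    rw [Matrix.add_apply, Matrix.map_apply, Matrix.map_apply, ← map_add, ← Matrix.add_apply, ← h1,
      Matrix.map_apply, hp']
  · have hrank : (L.map p).rank ≤ Module.finrank ℚ K * L.rank := by
      set W : Submodule K (I → K) := LinearMap.range L.mulVecLin with hW
      have hle : Submodule.span ℚ (Set.range (L.map p).col) ≤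
          (W.restrictScalars ℚ).map (p.compLeft I) := by
        rw [Submodule.span_le]
        rintro _ ⟨j, rfl⟩
        refine ⟨L.col j, ?_, ?_⟩
        · change L.col j ∈ W
          rw [hW, Matrix.range_mulVecLin]
          exact Submodule.subset_span ⟨j, rfl⟩
        · ext i
          rfl
      have hfin : Module.finrank ℚ (W.restrictScalars ℚ) = Module.finrank ℚ K * L.rank := by
        have : Module.finrank ℚ K * Module.finrank K W = Module.finrank ℚ W :=
          Module.finrank_mul_finrank ℚ K W
        exact this.symm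
      rw [Matrix.rank_eq_finrank_span_cols, ← hfin]
      exact (Submodule.finrank_mono hle).trans (Submodule.finrank_map_le _ _)
    calc ((L.map p).rank : ℝ) ≤ (Module.finrank ℚ K : ℝ) * L.rank := by exact_mod_cast hrank
      _ ≤ _ := mul_le_mul_of_nonneg_left h2 (by positivity)
  · intro i
    refine le_trans ?_ (h3 i)
    have : (univ.filter fun j => S.map p i j ≠ 0) ⊆ (univ.filter fun j => S i j ≠ 0) := by
      intro j hj
      refine mem_filter.mpr ⟨mem_univ _, fun h0 => (mem_filter.mp hj).2 ?_⟩
      rw [Matrix.map_apply, h0, map_zero]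
    exact_mod_cast card_le_card this
  · intro j
    refine le_trans ?_ (h4 j)
    have : (univ.filter fun i => S.map p i j ≠ 0) ⊆ (univ.filter fun i => S i j ≠ 0) := by
      intro i hi
      refine mem_filter.mpr ⟨mem_univ _, fun h0 => (mem_filter.mp hi).2 ?_⟩
      rw [Matrix.map_apply, h0, map_zero]
    exact_mod_cast card_le_card this

lemma descent' (K : Type) [Field K] [CharZero K] [Algebra ℚ K] [FiniteDimensional ℚ K] :
    ∃ D : ℕ, 0 < D ∧ ∀ (I J : Type) [Fintype I] [Fintype J] (r t : ℝ) (M : Matrix I J ℚ),
      Approx r t (M.map (algebraMap ℚ K)) → Approx (D * r) t M :=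
  ⟨Module.finrank ℚ K, Module.finrank_pos, fun _ _ _ _ _ _ M h => descent M h⟩

end Pool.Agent.H85.Rigid
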