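import Pool.Agent.H85.Rigid.Triangular

/-!
# Fourier kernels and circulant matrices
-/

set_option autoImplicit false
open Matrix Finset
open scoped Classical

namespace Pool.Agent.H85.Rigid

variable {K : Type} [Field K]

/-- Abstract Fourier kernel of a finite abelian group. -/
structure IsKernel {U : Type} [AddCommGroup U] [Fintype U] (F : Matrix U U K) : Prop where
  map_add : ∀ u z w, F u (z + w) = F u z * F u w
  sum_eq : ∀ z, ∑ u, F u z = if z = 0 then (Fintype.card U : K) else 0

lemma IsKernel.inversion [CharZero K] {U : Type} [AddCommGroup U] [Fintype U] {F : Matrix U U K}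
    (hF : IsKernel F) (g : U → K) : ∃ D : U → K, ∀ z, g z = ∑ u, D u * F u z := by
  have hcard : (Fintype.card U : K) ≠ 0 := by
    have : Fintype.card U ≠ 0 := Fintype.card_ne_zero
    exact_mod_cast this
  refine ⟨fun u => (Fintype.card U : K)⁻¹ * ∑ w, g w * F u (-w), fun z => ?_⟩
  have h1 : ∑ u, ((Fintype.card U : K)⁻¹ * ∑ w, g w * F u (-w)) * F u z =
      (Fintype.card U : K)⁻¹ * ∑ w, g w * ∑ u, F u (z - w) := by
    simp_rw [mul_assoc, ← Finset.mul_sum, Finset.sum_mul]
    rw [Finset.sum_comm]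
    congr 1
    refine Finset.sum_congr rfl fun w _ => ?_
    rw [Finset.mul_sum]
    refine Finset.sum_congr rfl fun u _ => ?_
    rw [sub_eq_add_neg, hF.map_add]
    ring
  rw [h1]
  simp_rw [hF.sum_eq]
  rw [Finset.sum_eq_single z]
  · simp only [sub_self, if_true]
    field_simp
  · intro w _ hw
    rw [if_neg, mul_zero]
    exact sub_ne_zero.mpr hw.symm
  · intro h
    exact absurd (mem_univ _) h

lemma IsKernel.prod {U V : Type} [AddCommGroup U] [Fintype U] [AddCommGroup V] [Fintype V]
    {F : Matrix U U K} {H : Matrix V V K} (hF : IsKernel F) (hH : IsKernel H) :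
    IsKernel (kron F H) := by
  constructor
  · intro u z w
    simp only [kron, Prod.fst_add, Prod.snd_add, hF.map_add, hH.map_add]
    ring
  · intro z
    simp only [kron]
    rw [Fintype.sum_prod_type]
    simp only
    simp_rw [← Finset.mul_sum, ← Finset.sum_mul, hF.sum_eq, hH.sum_eq]
    rw [Fintype.card_prod]
    by_cases h1 : z.1 = 0
    · by_cases h2 : z.2 = 0
      · rw [if_pos h1, if_pos h2, if_pos (Prod.ext h1 h2)]
        push_cast; ring
      · rw [if_neg h2, if_neg (show ¬ z = 0 from fun h => h2 (by rw [h]; rfl)), mul_zero]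
    · rw [if_neg h1, if_neg (show ¬ z = 0 from fun h => h1 (by rw [h]; rfl)), zero_mul]

lemma IsKernel.pi {T : Type} [Fintype T] {U : T → Type} [∀ t, AddCommGroup (U t)]
    [∀ t, Fintype (U t)] {F : ∀ t, Matrix (U t) (U t) K} (hF : ∀ t, IsKernel (F t)) :
    IsKernel (piKron F) := by
  constructor
  · intro u z w
    simp only [piKron, Pi.add_apply]
    rw [← Finset.prod_mul_distrib]
    exact Finset.prod_congr rfl fun t _ => (hF t).map_add _ _ _
  · intro z
    have h1 : ∑ u, piKron F u z = ∏ t, ∑ u, F t u (z t) := by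
      rw [Finset.prod_univ_sum, Fintype.piFinset_univ]
      rfl
    rw [h1]
    simp_rw [(hF _).sum_eq]
    by_cases hz : z = 0
    · subst hz
      simp only [Pi.zero_apply, if_true]
      rw [Fintype.card_pi]
      push_cast
      rfl
    · rw [if_neg hz]
      obtain ⟨t, ht⟩ := Function.ne_iff.mp hz
      refine Finset.prod_eq_zero (mem_univ t) ?_
      rw [if_neg]
      exact ht

/-- The Fourier matrix of `ZMod d`. -/
def dft (d : ℕ) (ω : K) : Matrix (ZMod d) (ZMod d) K :=
  fun u z => (ω ^ u.val) ^ z.val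

lemma dft_eq (d : ℕ) [NeZero d] (ω : K) (hω : ω ^ d = 1) (u z : ZMod d) :
    dft d ω u z = AddChar.zmodChar d hω (u * z) := by
  have h1 : u * z = ((u.val * z.val : ℕ) : ZMod d) := by
    push_cast
    rw [ZMod.natCast_zmod_val, ZMod.natCast_zmod_val]
  rw [h1, AddChar.zmodChar_apply', dft, pow_mul]

lemma isKernel_dft (d : ℕ) [NeZero d] (ω : K) (hω : IsPrimitiveRoot ω d) :
    IsKernel (dft d ω) := by
  have h1 : ω ^ d = 1 := hω.pow_eq_one
  constructor
  · intro u z w
    rw [dft_eq d ω h1, dft_eq d ω h1, dft_eq d ω h1, mul_add, AddChar.map_add_eq_mul]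
  · intro z
    simp_rw [dft_eq d ω h1]
    have h2 := AddChar.sum_mulShift (R' := K) z (AddChar.zmodChar_primitive_of_primitive_root d hω)
    rw [h2]
    split_ifs <;> simp

/-- Kronecker products of Fourier matrices. -/
lemma approx_piKron_dft {T : Type} [Fintype T] (d : T → ℕ) [∀ t, NeZero (d t)] (ω : T → K)
    (hω : ∀ t, IsPrimitiveRoot (ω t) (d t)) (η θ : ℝ) (hη : 0 ≤ η)
    (hη' : η ≤ 1 / 2) (hθ : 0 < θ) (hθ1 : θ ≤ 1) (D s : ℕ)
    (hD : ∀ t, d t ≤ D) (hs : D ≤ 2 ^ s) :
    Approx (8 * (s + 1) * (∏ t, (d t : ℝ)) * Real.exp (-(η ^ 2) * Fintype.card T))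
      (((θ ^ (-(2 * η)) * (1 + θ * D)) ^ (Fintype.card T)) ^ (2 * (s + 1)))
      (piKron fun t => dft (d t) (ω t)) := by
  have h := approx_piKron_vandermonde d (fun t (i : Fin (d t)) => (ω t) ^ (i : ℕ))
    (by
      intro t i j hij
      exact Fin.ext ((hω t).pow_inj i.2 j.2 hij)) η θ hη hη' hθ hθ1 D s hD hs
  set e : (∀ t, ZMod (d t)) → (∀ t, Fin (d t)) := fun u t => ⟨(u t).val, ZMod.val_lt _⟩ with he
  have hinj : Function.Injective e := by
    intro u u' huu
    funext t
    have := congrFun huu t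
    simp only [he, Fin.mk.injEq] at this
    exact ZMod.val_injective _ this
  have h2 := h.submatrix e e hinj hinj
  exact h2

/-- The group matrix of `f`. -/
def circ {G : Type} [AddCommGroup G] (f : G → K) : Matrix G G K :=
  fun x y => f (x - y)

/-- Freiman type embeddings. -/
def Emb {G U : Type} [AddCommGroup G] [AddCommGroup U] (φ : G → U) : Prop :=
  ∀ x y x' y', φ x - φ y = φ x' - φ y' → x - y = x' - y'

lemma Emb.prod {G U G' U' : Type} [AddCommGroup G] [AddCommGroup U] [AddCommGroup G']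
    [AddCommGroup U'] {φ : G → U} {ψ : G' → U'} (hφ : Emb φ) (hψ : Emb ψ) :
    Emb (Prod.map φ ψ) := by
  intro x y x' y' h
  rw [Prod.ext_iff] at h ⊢
  exact ⟨hφ _ _ _ _ h.1, hψ _ _ _ _ h.2⟩

lemma Emb.id {G : Type} [AddCommGroup G] : Emb (fun x : G => x) := fun _ _ _ _ h => h

lemma circ_eq [CharZero K] {G U : Type} [AddCommGroup G] [AddCommGroup U] [Fintype G] [Fintype U]
    [DecidableEq U]
    {F : Matrix U U K} (hF : IsKernel F) {φ : G → U} (hφ : Emb φ) (f : G → K) :
    ∃ D : U → K, circ f = (F.submatrix (fun u => u) φ)ᵀ * Matrix.diagonal D *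
      (F.submatrix (fun u => u) (fun x => - φ x)) := by
  set g : U → K := fun z =>
    if h : ∃ p : G × G, φ p.1 - φ p.2 = z then f (h.choose.1 - h.choose.2) else 0 with hg
  obtain ⟨D, hD⟩ := hF.inversion g
  refine ⟨D, ?_⟩
  ext x y
  have h1 : g (φ x - φ y) = f (x - y) := by
    have hex : ∃ p : G × G, φ p.1 - φ p.2 = φ x - φ y := ⟨(x, y), rfl⟩
    rw [hg]
    simp only
    rw [dif_pos hex, hφ _ _ _ _ hex.choose_spec]
  rw [Matrix.mul_apply]
  simp only [Matrix.mul_diagonal, Matrix.transpose_apply, Matrix.submatrix_apply]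
  rw [circ, ← h1, hD]
  refine Finset.sum_congr rfl fun u _ => ?_
  rw [sub_eq_add_neg, hF.map_add]
  ring

/-- The main reduction for a product of two groups. -/
lemma approx_circ_prod [CharZero K] {G U G' U' : Type} [AddCommGroup G] [AddCommGroup U]
    [AddCommGroup G'] [AddCommGroup U'] [Fintype G] [Fintype U] [Fintype G'] [Fintype U']
    {F : Matrix U U K} {F' : Matrix U' U' K} (hF : IsKernel F) (hF' : IsKernel F')
    {φ : G → U} {φ' : G' → U'} (hφ : Emb φ) (hφ' : Emb φ') {r t r' t' : ℝ} (ht : 0 ≤ t)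
    (ht' : 0 ≤ t')
    (h1 : Approx r t (F.submatrix (fun u => u) φ))
    (h2 : Approx r t (F.submatrix (fun u => u) (fun x => - φ x)))
    (h1' : Approx r' t' (F'.submatrix (fun u => u) φ'))
    (h2' : Approx r' t' (F'.submatrix (fun u => u) (fun x => - φ' x)))
    (f : G × G' → K) :
    Approx (2 * (r * Fintype.card G' + Fintype.card G * r')) ((t * t') ^ 2) (circ f) := by
  obtain ⟨D, hD⟩ := circ_eq (hF.prod hF') (hφ.prod hφ') f
  rw [hD]
  have e1 : (kron F F').submatrix (fun u => u) (Prod.map φ φ') =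
      kron (F.submatrix (fun u => u) φ) (F'.submatrix (fun u => u) φ') := rfl
  have e2 : (kron F F').submatrix (fun u => u) (fun x => - Prod.map φ φ' x) =
      kron (F.submatrix (fun u => u) (fun x => - φ x))
        (F'.submatrix (fun u => u) (fun x => - φ' x)) := rfl
  rw [e1, e2]
  have a1 := Approx.kron ht h1 h1'
  have a2 := Approx.kron ht h2 h2'
  have htt : 0 ≤ t * t' := mul_nonneg ht ht'
  refine (((a1.transpose.mul htt zero_le_one (Approx.diagonal D))).mul (by positivity) htt
    a2).mono ?_ ?_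
  · linarith
  · rw [mul_one, sq]

end Pool.Agent.H85.Rigid
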