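import Pool.Agent.H85.Rigid.Main

/-!
# Group matrices of abelian groups over an arbitrary field of characteristic zero
-/

set_option autoImplicit false
open Matrix Finset
open scoped Classical

namespace Pool.Agent.H85.Rigid

/-- Descent of a decomposition along a finite extension. -/
lemma descentF {F K : Type} [Field F] [Field K] [Algebra F K] [FiniteDimensional F K]
    {I J : Type} [Fintype I] [Fintype J] {r t : ℝ} (M : Matrix I J F)
    (h : Approx r t (M.map (algebraMap F K))) :
    Approx (Module.finrank F K * r) t M := by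
  obtain ⟨L, S, h1, h2, h3, h4⟩ := h
  obtain ⟨p, hp⟩ := (Algebra.linearMap F K).exists_leftInverse_of_injective
    (LinearMap.ker_eq_bot.mpr (algebraMap F K).injective)
  have hp' : ∀ q : F, p (algebraMap F K q) = q := fun q => LinearMap.congr_fun hp q
  refine ⟨L.map p, S.map p, ?_, ?_, ?_, ?_⟩
  · ext i j
    rw [Matrix.add_apply, Matrix.map_apply, Matrix.map_apply, ← map_add, ← Matrix.add_apply, ← h1,
      Matrix.map_apply, hp']
  · have hrank : (L.map p).rank ≤ Module.finrank F K * L.rank := by
      set W : Submodule K (I → K) := LinearMap.range L.mulVecLin with hW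
      have hle : Submodule.span F (Set.range (L.map p).col) ≤
          (W.restrictScalars F).map (p.compLeft I) := by
        rw [Submodule.span_le]
        rintro _ ⟨j, rfl⟩
        refine ⟨L.col j, ?_, ?_⟩
        · change L.col j ∈ W
          rw [hW, Matrix.range_mulVecLin]
          exact Submodule.subset_span ⟨j, rfl⟩
        · ext i
          rfl
      have hfin : Module.finrank F (W.restrictScalars F) = Module.finrank F K * L.rank := by
        have : Module.finrank F K * Module.finrank K W = Module.finrank F W :=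
          Module.finrank_mul_finrank F K W
        exact this.symm
      rw [Matrix.rank_eq_finrank_span_cols, ← hfin]
      exact (Submodule.finrank_mono hle).trans (Submodule.finrank_map_le _ _)
    calc ((L.map p).rank : ℝ) ≤ (Module.finrank F K : ℝ) * L.rank := by exact_mod_cast hrank
      _ ≤ _ := mul_le_mul_of_nonneg_left h2 (by positivity)
  · intro i
    refine le_trans ?_ (h3 i)
    have : (univ.filter fun j => S.map p i j ≠ 0) ⊆ (univ.filter fun j => S i j ≠ 0) := by
      intro j hj
      refine mem_filter.mpr ⟨mem_univ _, fun h0 => (mem_filter.mp hj).2 ?_⟩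
      rw [Matrix.map_apply, h0, map_zero]
    exact_mod_cast card_le_card this
  · intro j
    refine le_trans ?_ (h4 j)
    have : (univ.filter fun i => S.map p i j ≠ 0) ⊆ (univ.filter fun i => S i j ≠ 0) := by
      intro i hi
      refine mem_filter.mpr ⟨mem_univ _, fun h0 => (mem_filter.mp hi).2 ?_⟩
      rw [Matrix.map_apply, h0, map_zero]
    exact_mod_cast card_le_card this

/-- Over every field of characteristic zero there is an extension of degree at most `E` with a
primitive `E`-th root of unity. -/
lemma exists_fieldF (F : Type) [Field F] [CharZero F] (E : ℕ) (hE : 0 < E) :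
    ∃ (K : Type) (_ : Field K) (_ : CharZero K) (_ : Algebra F K) (_ : FiniteDimensional F K)
      (ζ : K), IsPrimitiveRoot ζ E ∧ Module.finrank F K ≤ E := by
  have hEne : NeZero E := ⟨hE.ne'⟩
  have hEneQ : NeZero ((E : ℕ) : F) := ⟨by exact_mod_cast hE.ne'⟩
  have hEC : IsCyclotomicExtension {E} F (CyclotomicField E F) := inferInstance
  have hfd : FiniteDimensional F (CyclotomicField E F) :=
    IsCyclotomicExtension.finiteDimensional {E} F (CyclotomicField E F)
  have hζ := IsCyclotomicExtension.zeta_spec E F (CyclotomicField E F)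
  set ζ := IsCyclotomicExtension.zeta E F (CyclotomicField E F) with hζdef
  refine ⟨CyclotomicField E F, inferInstance, ?_, inferInstance, hfd, ζ, hζ, ?_⟩
  · exact charZero_of_injective_algebraMap (algebraMap F (CyclotomicField E F)).injective
  · have hint : IsIntegral F ζ := IsIntegral.of_finite F ζ
    have htop : Algebra.adjoin F {ζ} = ⊤ := IsCyclotomicExtension.adjoin_primitive_root_eq_top hζ
    have htop' : IntermediateField.adjoin F {ζ} = ⊤ := by
      rw [eq_top_iff]
      intro x _
      have hx : x ∈ Algebra.adjoin F {ζ} := by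
        rw [htop]
        trivial
      exact IntermediateField.algebra_adjoin_le_adjoin F {ζ} hx
    have h1 : Module.finrank F (CyclotomicField E F) = (minpoly F ζ).natDegree := by
      rw [← IntermediateField.adjoin.finrank hint, htop', IntermediateField.finrank_top']
    rw [h1]
    have hdvd : minpoly F ζ ∣ (Polynomial.X ^ E - 1 : Polynomial F) := by
      apply minpoly.dvd
      rw [map_sub, map_pow, Polynomial.aeval_X, map_one, hζ.pow_eq_one, sub_self]
    have hne : (Polynomial.X ^ E - 1 : Polynomial F) ≠ 0 := by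
      have := Polynomial.X_pow_sub_C_ne_zero hE (1 : F)
      rwa [map_one] at this
    refine (Polynomial.natDegree_le_of_dvd hdvd hne).trans ?_
    have := Polynomial.natDegree_X_pow_sub_C (n := E) (r := (1 : F))
    rw [map_one] at this
    rw [this]

/-- Group matrices of finite abelian groups over fields of characteristic zero, uniformly in the
field: low rank plus few entries in every row and every column. -/
theorem main_uniform (ε : ℝ) (hε : 0 < ε) : ∃ N₀ : ℕ, ∀ (F : Type) [Field F] [CharZero F]
    (G : Type) [AddCommGroup G] [Fintype G], N₀ ≤ Fintype.card G → ∀ f : G → F, ∃ t : ℝ,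
      t < (Fintype.card G : ℝ) ^ ε ∧
      Approx (ε * (Fintype.card G : ℝ)) t (Matrix.of (fun x y : G => f (x - y))) := by
  set δ : ℝ := ε / 4 with hδdef
  have hδ : 0 < δ := by positivity
  obtain ⟨m, s, η, θ, hη0, hη1, hθ0, hθ1, hms, hm2, hJ, hJ6, hpar⟩ := params δ hδ
  rw [← card_primesTo] at hJ hJ6
  -- the modulus
  have h2mem : 2 ∈ primesTo m := by
    unfold primesTo
    rw [mem_filter, mem_range]
    exact ⟨by omega, Nat.prime_two⟩
  obtain ⟨b, hM⟩ : 2 ∣ ∏ p ∈ primesTo m, p := Finset.dvd_prod_of_mem _ h2mem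
  have hb : 1 < b := by
    have h1 : 2 ^ (primesTo m).card ≤ ∏ p ∈ primesTo m, p := by
      rw [← Finset.prod_const]
      exact Finset.prod_le_prod (fun p _ => by norm_num) fun p hp => (prime_of_mem hp).two_le
    have h2 : 6 ≤ (primesTo m).card := by exact_mod_cast hJ6
    have h3 : 2 ^ 6 ≤ 2 ^ (primesTo m).card := Nat.pow_le_pow_right (by norm_num) h2
    rw [hM] at h1
    omega
  set B : ℕ := b ^ b with hB
  -- the field
  set E : ℕ := 2 * b * B.factorial with hE
  have hEpos : 0 < E := by
    rw [hE]
    have := Nat.factorial_pos B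
    positivity
  have hE' : (0 : ℝ) < E := by exact_mod_cast hEpos
  set κ : ℝ := ε / (4 * E) with hκdef
  have hκ : 0 < κ := by positivity
  obtain ⟨C, hC1, hmain⟩ := approx_product m b s B η θ δ κ hδ hκ hη0 hη1 hθ0 hθ1 hms hJ hJ6 hpar
    hb le_rfl hM
  obtain ⟨N₀, hN₀⟩ := exists_nat_gt (C ^ (2 / ε))
  refine ⟨N₀, ?_⟩
  intro F _ _ G _ _ hcardG f
  obtain ⟨K, _, _, _, _, ζ, hζ, hdeg⟩ := exists_fieldF F E hEpos
  have hroot : ∀ d : ℕ, d ∣ E → IsPrimitiveRoot (ζ ^ (E / d)) d := by
    intro d hd
    refine hζ.pow hEpos ?_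
    rw [Nat.div_mul_cancel hd]
  -- decompose the group
  obtain ⟨ι, hι, n, hn1, ⟨e0⟩⟩ := AddCommGroup.equiv_directSum_zmod_of_finite' G
  have hnz : ∀ i, NeZero (n i) := fun i => ⟨by have := hn1 i; omega⟩
  obtain ⟨e⟩ : Nonempty (G ≃+ (∀ i : {i // n i ≤ B}, ZMod (n i)) ×
      (∀ i : {i // ¬ n i ≤ B}, ZMod (n i))) :=
    ⟨(e0.trans (DirectSum.addEquivProd _)).trans (splitEquiv (fun i => ZMod (n i))
      (fun i => n i ≤ B))⟩
  set N : ℝ := (Fintype.card G : ℝ) with hN
  have hNprod : ((∏ i : {i // n i ≤ B}, (n i : ℝ)) * ∏ i : {i // ¬ n i ≤ B}, (n i : ℝ)) = N := by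
    rw [hN, Fintype.card_congr e.toEquiv, Fintype.card_prod, Fintype.card_pi, Fintype.card_pi]
    push_cast
    congr 1
    · exact Finset.prod_congr rfl fun i _ => by rw [ZMod.card]
    · exact Finset.prod_congr rfl fun i _ => by rw [ZMod.card]
  have hr1 : ∀ p ∈ primesTo m, IsPrimitiveRoot (ζ ^ (E / p)) p := by
    intro p hp
    refine hroot p ?_
    rw [hE, ← hM]
    exact (Finset.dvd_prod_of_mem _ hp).mul_right _
  have hr2 : ∀ d : ℕ, 1 ≤ d → d ≤ B → IsPrimitiveRoot (ζ ^ (E / d)) d := by
    intro d hd1 hd2
    refine hroot d ?_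
    rw [hE]
    exact (Nat.dvd_factorial (by omega) hd2).mul_left _
  have hAp : Approx (4 * κ * N) (C * N ^ (2 * δ))
      (circ fun z => algebraMap F K (f (e.symm z))) := by
    rw [← hNprod]
    exact Approx.inst (hmain K (fun d => ζ ^ (E / d)) hr1 hr2
      {i // n i ≤ B} {i // ¬ n i ≤ B} (fun i => n i) (fun i => n i)
      (fun i => hn1 i) (fun i => i.2) (fun i => not_le.mp i.2)
      (fun z => algebraMap F K (f (e.symm z))))
  have hsub := hAp.submatrix (fun x => e x) (fun x => e x) e.injective e.injective
  have hcirc : (circ fun z => algebraMap F K (f (e.symm z))).submatrix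
      (fun x => e x) (fun x => e x) =
      (Matrix.of (fun x y : G => f (x - y))).map (algebraMap F K) := by
    ext x y
    change algebraMap F K (f (e.symm (e x - e y))) = algebraMap F K (f (x - y))
    congr 2
    rw [← map_sub]
    exact e.symm_apply_apply _
  rw [hcirc] at hsub
  have hdesc := descentF _ hsub
  have hN0 : 0 < N := by
    rw [hN]
    exact_mod_cast Fintype.card_pos_iff.mpr ⟨(0 : G)⟩
  refine ⟨C * N ^ (2 * δ), ?_, hdesc.mono ?_ le_rfl⟩
  · have hCN : C < N ^ (ε / 2) := by
      have h2 : C ^ (2 / ε) < N := by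
        refine hN₀.trans_le ?_
        rw [hN]
        exact_mod_cast hcardG
      have h3 : (C ^ (2 / ε)) ^ (ε / 2) < N ^ (ε / 2) :=
        Real.rpow_lt_rpow (by positivity) h2 (by positivity)
      rwa [← Real.rpow_mul (by linarith), show 2 / ε * (ε / 2) = 1 by field_simp,
        Real.rpow_one] at h3
    have h4 : N ^ ε = N ^ (ε / 2) * N ^ (2 * δ) := by
      rw [← Real.rpow_add hN0]
      congr 1
      rw [hδdef]
      ring
    rw [h4]
    exact mul_lt_mul_of_pos_right hCN (Real.rpow_pos_of_pos hN0 _)
  · have h1 : (Module.finrank F K : ℝ) ≤ E := by exact_mod_cast hdeg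
    calc (Module.finrank F K : ℝ) * (4 * κ * N) ≤ E * (4 * κ * N) :=
          mul_le_mul_of_nonneg_right h1 (by positivity)
      _ = ε * N := by
          rw [hκdef]
          field_simp

end Pool.Agent.H85.Rigid
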