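import Pool.Agent.H85.Rigid.Parts

/-!
# The large cyclic factors
-/

set_option autoImplicit false
open Matrix Finset
open scoped Classical

namespace Pool.Agent.H85.Rigid

lemma large_part (m b s : ℕ) (η θ δ κ : ℝ) (hδ : 0 < δ) (hκ : 0 < κ) (hη0 : 0 ≤ η)
    (hη1 : η ≤ 1 / 2) (hθ0 : 0 < θ) (hθ1 : θ ≤ 1) (hms : m ≤ 2 ^ s)
    (hJ : 3 ≤ η ^ 2 * ((primesTo m).card : ℝ)) (hJ6 : (6 : ℝ) ≤ (primesTo m).card)
    (hpar : (θ ^ (-(2 * η)) * (1 + θ * m)) ^ (2 * (s + 1)) ≤ (2 : ℝ) ^ (δ / 2))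
    (hb : 0 < b) (hM : ∏ p ∈ primesTo m, p = 2 * b) : ∃ C : ℝ, 1 ≤ C ∧
    ∀ (K : Type) [Field K] (ω : primesTo m → K) (_ : ∀ p, IsPrimitiveRoot (ω p) (p : ℕ))
      (I : Type) [Fintype I] (n k : I → ℕ) [∀ i, NeZero (n i)]
      (_ : ∀ i, n i ≤ b ^ k i) (_ : ∀ i, b ^ k i ≤ b * n i) (_ : ∀ i, b ≤ k i)
      (ψ : (∀ i, ZMod (n i)) → ∀ t : (Σ i : I, Fin (k i)) × primesTo m, ZMod (t.2 : ℕ))
      (_ : Function.Injective ψ),
      Approx (κ * ∏ i, (n i : ℝ)) (C * (∏ i, (n i : ℝ)) ^ δ)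
        ((piKron fun t : (Σ i : I, Fin (k i)) × primesTo m => dft (t.2 : ℕ) (ω t.2)).submatrix
          (fun u => u) ψ) := by
  set J : ℕ := (primesTo m).card with hJdef
  obtain ⟨k₀, hk₀⟩ := exists_nat_gt (8 * ((s : ℝ) + 1) / κ)
  have hb1 : (1 : ℝ) ≤ b := by exact_mod_cast hb
  have h2b : (1 : ℝ) ≤ 2 * b := by linarith
  have hMr : ∏ p : primesTo m, ((p : ℕ) : ℝ) = 2 * b := by
    rw [Finset.prod_coe_sort (primesTo m) (fun p => (p : ℝ))]
    rw [← Nat.cast_prod, hM]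
    push_cast
    rfl
  have h2J : (2 : ℝ) ^ J ≤ 2 * b := by
    have h1 : 2 ^ J ≤ ∏ p ∈ primesTo m, p := by
      rw [hJdef, ← Finset.prod_const]
      exact Finset.prod_le_prod (fun p _ => by norm_num) fun p hp => (prime_of_mem hp).two_le
    rw [hM] at h1
    exact_mod_cast h1
  refine ⟨(2 * b : ℝ) ^ k₀, one_le_pow₀ h2b, ?_⟩
  intro K _ ω hω I _ n k _ hk1 hk2 hk3 ψ hψ
  set N : ℝ := ∏ i, (n i : ℝ) with hN
  set kt : ℕ := Fintype.card (Σ i : I, Fin (k i)) with hkt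
  have hkt' : kt = ∑ i, k i := by
    rw [hkt, Fintype.card_sigma]
    simp
  have hn1 : ∀ i, (1 : ℝ) ≤ n i := fun i => by
    exact_mod_cast Nat.one_le_iff_ne_zero.mpr (NeZero.ne (n i))
  have hN1 : 1 ≤ N := by
    rw [hN]
    calc (1 : ℝ) = ∏ _i : I, (1 : ℝ) := by simp
      _ ≤ _ := Finset.prod_le_prod (fun i _ => by norm_num) fun i _ => hn1 i
  have hN0 : 0 < N := by linarith
  have hNδ : 1 ≤ N ^ δ := Real.one_le_rpow hN1 hδ.le
  -- the size of the big group
  have hNbig : ∏ t : (Σ i : I, Fin (k i)) × primesTo m, ((t.2 : ℕ) : ℝ) = (2 * b : ℝ) ^ kt := by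
    rw [Fintype.prod_prod_type]
    simp only
    rw [hMr, Finset.prod_const, card_univ]
  have hcardT : Fintype.card ((Σ i : I, Fin (k i)) × primesTo m) = kt * J := by
    rw [Fintype.card_prod, Fintype.card_coe]
  have hbigle : (2 * b : ℝ) ^ kt ≤ 4 ^ kt * N := by
    rw [hkt', ← Finset.prod_pow_eq_pow_sum, ← Finset.prod_pow_eq_pow_sum, hN,
      ← Finset.prod_mul_distrib]
    refine Finset.prod_le_prod (fun i _ => by positivity) fun i _ => ?_
    have h1 : (b : ℝ) ^ k i ≤ b * n i := by exact_mod_cast hk2 i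
    have h2 : (b : ℝ) ≤ 2 ^ k i := by
      exact_mod_cast (hk3 i).trans (Nat.lt_two_pow_self).le
    calc (2 * b : ℝ) ^ k i = 2 ^ k i * (b : ℝ) ^ k i := mul_pow _ _ _
      _ ≤ 2 ^ k i * (b * n i) := mul_le_mul_of_nonneg_left h1 (by positivity)
      _ ≤ 2 ^ k i * (2 ^ k i * n i) := by
          refine mul_le_mul_of_nonneg_left ?_ (by positivity)
          exact mul_le_mul_of_nonneg_right h2 (by positivity)
      _ = 4 ^ k i * n i := by
          rw [← mul_assoc, ← mul_pow]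
          norm_num
  by_cases hcase : k₀ ≤ kt
  · have hmain := Approx.inst (i1' := inferInstance) (i2' := inferInstance)
      (approx_piKron_dft (K := K)
      (fun t : (Σ i : I, Fin (k i)) × primesTo m => (t.2 : ℕ)) (fun t => ω t.2)
      (fun t => hω t.2) η θ hη0 hη1 hθ0 hθ1 m s (fun t => le_of_mem t.2.2) hms)
    refine (hmain.submatrix (fun u => u) ψ (fun _ _ h => h) hψ).mono ?_ ?_
    · rw [hNbig, hcardT]
      have h1 : Real.exp (-(η ^ 2) * ((kt * J : ℕ) : ℝ)) ≤ (1 / 16) ^ kt := by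
        have h3 : (1 / 16 : ℝ) = Real.exp (-Real.log 16) := by
          rw [Real.exp_neg, Real.exp_log (by norm_num)]
          norm_num
        rw [h3, ← Real.exp_nat_mul]
        apply Real.exp_le_exp.mpr
        push_cast
        have h4 : Real.log 16 ≤ 3 := by
          rw [show (16 : ℝ) = 2 ^ 4 by norm_num, Real.log_pow]
          have := Real.log_two_lt_d9
          norm_num at this ⊢
          linarith
        have h5 : (0 : ℝ) ≤ kt := by positivity
        nlinarith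
      have h6 : 8 * ((s : ℝ) + 1) * (1 / 4) ^ kt ≤ κ := by
        have h7 : (kt : ℝ) ≤ 4 ^ kt := by
          have : kt ≤ 4 ^ kt := (Nat.lt_pow_self (by norm_num)).le
          exact_mod_cast this
        have h8 : (k₀ : ℝ) ≤ kt := by exact_mod_cast hcase
        have h9 : 8 * ((s : ℝ) + 1) / κ ≤ 4 ^ kt := by linarith
        rw [div_le_iff₀ hκ] at h9
        rw [one_div, inv_pow, ← div_eq_mul_inv, div_le_iff₀ (by positivity)]
        linarith
      calc 8 * ((s : ℝ) + 1) * (2 * b : ℝ) ^ kt * Real.exp (-(η ^ 2) * ((kt * J : ℕ) : ℝ))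
          ≤ 8 * ((s : ℝ) + 1) * (4 ^ kt * N) * (1 / 16) ^ kt := by
            apply mul_le_mul _ h1 (Real.exp_pos _).le (by positivity)
            exact mul_le_mul_of_nonneg_left hbigle (by positivity)
        _ = (8 * ((s : ℝ) + 1) * (1 / 4) ^ kt) * N := by
            have : (4 : ℝ) ^ kt * (1 / 16) ^ kt = (1 / 4) ^ kt := by
              rw [← mul_pow]; norm_num
            rw [← this]; ring
        _ ≤ κ * N := mul_le_mul_of_nonneg_right h6 hN0.le
    · rw [hcardT]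
      have h1 : ((θ ^ (-(2 * η)) * (1 + θ * m)) ^ (kt * J)) ^ (2 * (s + 1)) ≤ N ^ δ := by
        rw [← pow_mul, mul_comm (kt * J), pow_mul]
        have h2 : 0 ≤ (θ ^ (-(2 * η)) * (1 + θ * m)) ^ (2 * (s + 1)) := by
          have := Real.rpow_nonneg hθ0.le (-(2 * η))
          positivity
        have hNlow : (2 : ℝ) ^ (((kt * J : ℕ) : ℝ) / 2) ≤ N := by
          have h3 : (2 : ℝ) ^ (((kt * J : ℕ) : ℝ) / 2) * 4 ^ kt ≤ (2 : ℝ) ^ (kt * J) := by
            have e1 : (4 : ℝ) ^ kt = (2 : ℝ) ^ ((2 * kt : ℕ) : ℝ) := by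
              rw [Real.rpow_natCast, pow_mul]; norm_num
            rw [e1, ← Real.rpow_natCast 2 (kt * J), ← Real.rpow_add (by norm_num)]
            apply Real.rpow_le_rpow_of_exponent_le (by norm_num)
            push_cast
            have : (0 : ℝ) ≤ kt := by positivity
            nlinarith
          have h4 : (2 : ℝ) ^ (kt * J) ≤ 4 ^ kt * N := by
            refine le_trans ?_ hbigle
            rw [mul_comm kt J, pow_mul]
            exact pow_le_pow_left₀ (by positivity) h2J _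
          have h5 : (2 : ℝ) ^ (((kt * J : ℕ) : ℝ) / 2) * 4 ^ kt ≤ N * 4 ^ kt := by linarith
          exact le_of_mul_le_mul_right h5 (by positivity)
        calc _ ≤ ((2 : ℝ) ^ (δ / 2)) ^ (kt * J) := pow_le_pow_left₀ h2 hpar _
          _ = ((2 : ℝ) ^ (((kt * J : ℕ) : ℝ) / 2)) ^ δ := by
              rw [← Real.rpow_natCast, ← Real.rpow_mul (by norm_num),
                ← Real.rpow_mul (by norm_num)]
              congr 1
              ring
          _ ≤ N ^ δ := Real.rpow_le_rpow (by positivity) hNlow hδ.le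
      refine h1.trans ?_
      have h3 : (1 : ℝ) ≤ (2 * b : ℝ) ^ k₀ := one_le_pow₀ h2b
      nlinarith
  · have hle : (2 * b : ℝ) ^ kt ≤ (2 * b : ℝ) ^ k₀ := pow_le_pow_right₀ h2b (by omega)
    have hC1 : (1 : ℝ) ≤ (2 * b : ℝ) ^ k₀ := one_le_pow₀ h2b
    have hle2 : (2 * b : ℝ) ^ kt ≤ (2 * b : ℝ) ^ k₀ * N ^ δ := by nlinarith
    have hcardU : (Fintype.card (∀ t : (Σ i : I, Fin (k i)) × primesTo m, ZMod (t.2 : ℕ)) : ℝ) =
        (2 * b : ℝ) ^ kt := by
      rw [← hNbig, Fintype.card_pi]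
      push_cast
      exact Finset.prod_congr rfl fun i _ => by rw [ZMod.card]
    have hcardG : (Fintype.card (∀ i, ZMod (n i)) : ℝ) ≤ (2 * b : ℝ) ^ kt := by
      rw [← hcardU]
      exact_mod_cast Fintype.card_le_of_injective ψ hψ
    refine (Approx.dense (t := (2 * b : ℝ) ^ k₀ * N ^ δ) _ ?_ ?_).mono (by positivity) le_rfl
    · rw [hcardU]; exact hle2
    · exact hcardG.trans hle2

end Pool.Agent.H85.Rigid
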