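import Pool.Agent.H85.Rigid.Large

/-!
# No family of rational group matrices of abelian groups is rigid over the rationals
-/

set_option autoImplicit false
open Matrix Finset
open scoped Classical

namespace Pool.Agent.H85.Rigid

lemma Emb.injective {G U : Type} [AddCommGroup G] [AddCommGroup U] {φ : G → U} (h : Emb φ) :
    Function.Injective φ := by
  intro x y hxy
  have := h x y y y (by rw [hxy])
  rw [sub_self, sub_eq_zero] at this
  exact this

lemma IsKernel.inst {K : Type} [Field K] {U : Type} [AddCommGroup U] {i1 i1' : Fintype U}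
    {F : Matrix U U K} (h : @IsKernel K _ U _ i1 F) : @IsKernel K _ U _ i1' F := by
  obtain rfl := Subsingleton.elim i1 i1'
  exact h

/-- The decomposition, over a field with enough roots of unity, for a product of cyclic groups. -/
lemma approx_product (m b s B : ℕ) (η θ δ κ : ℝ) (hδ : 0 < δ) (hκ : 0 < κ) (hη0 : 0 ≤ η)
    (hη1 : η ≤ 1 / 2) (hθ0 : 0 < θ) (hθ1 : θ ≤ 1) (hms : m ≤ 2 ^ s)
    (hJ : 3 ≤ η ^ 2 * ((primesTo m).card : ℝ)) (hJ6 : (6 : ℝ) ≤ (primesTo m).card)
    (hpar : (θ ^ (-(2 * η)) * (1 + θ * m)) ^ (2 * (s + 1)) ≤ (2 : ℝ) ^ (δ / 2))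
    (hb : 1 < b) (hB : b ^ b ≤ B) (hM : ∏ p ∈ primesTo m, p = 2 * b) : ∃ C : ℝ, 1 ≤ C ∧
    ∀ (K : Type) [Field K] [CharZero K] (ω : ℕ → K)
      (_ : ∀ p ∈ primesTo m, IsPrimitiveRoot (ω p) p)
      (_ : ∀ d : ℕ, 1 ≤ d → d ≤ B → IsPrimitiveRoot (ω d) d)
      (I I' : Type) [Fintype I] [Fintype I'] (n : I → ℕ) (n' : I' → ℕ)
      [∀ i, NeZero (n i)] [∀ i, NeZero (n' i)]
      (_ : ∀ i, 2 ≤ n i) (_ : ∀ i, n i ≤ B) (_ : ∀ i, B < n' i)
      (f : (∀ i, ZMod (n i)) × (∀ i, ZMod (n' i)) → K),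
      Approx (4 * κ * ((∏ i, (n i : ℝ)) * ∏ i, (n' i : ℝ)))
        (C * ((∏ i, (n i : ℝ)) * ∏ i, (n' i : ℝ)) ^ (2 * δ)) (circ f) := by
  obtain ⟨C1, hC1, h1⟩ := small_part B δ κ hδ hκ
  obtain ⟨C2, hC2, h2⟩ := large_part m b s η θ δ κ hδ hκ hη0 hη1 hθ0 hθ1 hms hJ hJ6 hpar
    (by omega) hM
  refine ⟨(C1 * C2) ^ 2, one_le_pow₀ (by nlinarith), ?_⟩
  intro K _ _ ω hω1 hω2 I I' _ _ n n' _ _ hn2 hnB hn' f
  set N : ℝ := ∏ i, (n i : ℝ) with hN
  set N' : ℝ := ∏ i, (n' i : ℝ) with hN'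
  have hN0 : 0 ≤ N := Finset.prod_nonneg fun i _ => by positivity
  have hN0' : 0 ≤ N' := Finset.prod_nonneg fun i _ => by positivity
  have hcard : (Fintype.card (∀ i, ZMod (n i)) : ℝ) = N := by
    rw [Fintype.card_pi, hN]
    push_cast
    exact Finset.prod_congr rfl fun i _ => by rw [ZMod.card]
  have hcard' : (Fintype.card (∀ i, ZMod (n' i)) : ℝ) = N' := by
    rw [Fintype.card_pi, hN']
    push_cast
    exact Finset.prod_congr rfl fun i _ => by rw [ZMod.card]
  -- the number of digits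
  set k : I' → ℕ := fun i => Nat.clog b (n' i) with hk
  have hk1 : ∀ i, n' i ≤ b ^ k i := fun i => Nat.le_pow_clog hb _
  have hk3 : ∀ i, b ≤ k i := by
    intro i
    by_contra hcon
    have h3 : n' i ≤ b ^ b := (hk1 i).trans (Nat.pow_le_pow_right (by omega) (by omega))
    have := hn' i
    omega
  have hk2 : ∀ i, b ^ k i ≤ b * n' i := by
    intro i
    have hBpos : 1 ≤ b ^ b := Nat.one_le_pow _ _ (by omega)
    have h3 : 1 < n' i := by
      have := hn' i
      omega
    have h4 := Nat.pow_pred_clog_lt_self hb h3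
    have h5 : k i = (Nat.clog b (n' i)).pred + 1 := by
      have := hk3 i
      simp only [hk] at this ⊢
      rw [Nat.pred_eq_sub_one]
      omega
    rw [h5, pow_succ, mul_comm]
    exact Nat.mul_le_mul_left _ h4.le
  -- the pieces
  have hemb := digEmb_emb m b (by omega) hM n' k hk1
  have hker1 := IsKernel.pi (K := K) fun i : I => isKernel_dft (n i) (ω (n i))
    (hω2 _ (by have := hn2 i; omega) (hnB i))
  have hker2 := IsKernel.pi (K := K) fun t : (Σ i : I', Fin (k i)) × primesTo m =>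
    isKernel_dft (t.2 : ℕ) (ω (t.2 : ℕ)) (hω1 _ t.2.2)
  have hA := h1 K I n hn2 hnB (fun i => ω (n i))
    (fun i => hω2 _ (by have := hn2 i; omega) (hnB i))
  have hA1 := hA.submatrix (fun u => u) (fun x : ∀ i, ZMod (n i) => x) (fun _ _ h => h)
    (fun _ _ h => h)
  have hA2 := hA.submatrix (fun u => u) (fun x : ∀ i, ZMod (n i) => -x) (fun _ _ h => h)
    (fun _ _ h => neg_injective h)
  have hL1 := h2 K (fun p => ω (p : ℕ)) (fun p => hω1 _ p.2) I' n' k hk1 hk2 hk3
    (digEmb m b n' k) hemb.injective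
  have hL2 := h2 K (fun p => ω (p : ℕ)) (fun p => hω1 _ p.2) I' n' k hk1 hk2 hk3
    (fun x => - digEmb m b n' k x) (fun _ _ h => hemb.injective (neg_injective h))
  have hfin := approx_circ_prod (K := K) hker1.inst hker2.inst Emb.id hemb
    (t := C1 * N ^ δ) (t' := C2 * N' ^ δ) (by positivity) (by positivity)
    hA1 hA2 hL1 hL2 f
  refine hfin.inst.mono ?_ ?_
  · rw [hcard, hcard']
    apply le_of_eq
    ring
  · apply le_of_eq
    rw [Real.mul_rpow hN0 hN0', two_mul δ, Real.rpow_add_of_nonneg hN0 hδ.le hδ.le,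
      Real.rpow_add_of_nonneg hN0' hδ.le hδ.le]
    ring

/-- Splitting a product of groups according to a predicate. -/
def splitEquiv {I : Type} (U : I → Type) [∀ i, AddCommGroup (U i)] (p : I → Prop)
    [DecidablePred p] : (∀ i, U i) ≃+ (∀ i : {i // p i}, U i) × (∀ i : {i // ¬ p i}, U i) :=
  { Equiv.piEquivPiSubtypeProd p U with
    map_add' := fun _ _ => rfl }

lemma exists_field (E : ℕ) (hE : 0 < E) : ∃ (K : Type) (_ : Field K) (_ : CharZero K)
    (_ : Algebra ℚ K) (_ : FiniteDimensional ℚ K) (ζ : K), IsPrimitiveRoot ζ E := by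
  have hEne : NeZero E := ⟨hE.ne'⟩
  have hEneQ : NeZero ((E : ℕ) : ℚ) := ⟨by exact_mod_cast hE.ne'⟩
  let A : Algebra ℚ (CyclotomicField E ℚ) := CyclotomicField.algebra E ℚ
  have h : @IsCyclotomicExtension {E} ℚ (CyclotomicField E ℚ) _ _ A :=
    CyclotomicField.isCyclotomicExtension E ℚ
  refine ⟨CyclotomicField E ℚ, inferInstance, inferInstance, A, ?_,
    @IsCyclotomicExtension.zeta E _ ℚ (CyclotomicField E ℚ) _ _ A h,
    @IsCyclotomicExtension.zeta_spec E _ ℚ (CyclotomicField E ℚ) _ _ A h⟩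
  exact @IsCyclotomicExtension.finiteDimensional {E} ℚ _ (CyclotomicField E ℚ) _ _ A _ h

/-- No family of rational group matrices of finite abelian groups is rigid over `ℚ`. -/
theorem main_nonrigid (ε : ℝ) (hε : 0 < ε) : ∃ N₀ : ℕ, ∀ (G : Type) [AddCommGroup G] [Fintype G],
    N₀ ≤ Fintype.card G → ∀ f : G → ℚ, ∃ S : Matrix G G ℚ,
      ((univ.filter (fun p : G × G => S p.1 p.2 ≠ 0)).card : ℝ) <
        (Fintype.card G : ℝ) ^ (1 + ε) ∧
      ((Matrix.of (fun x y : G => f (x - y)) - S).rank : ℝ) ≤ ε * (Fintype.card G : ℝ) := by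
  set δ : ℝ := ε / 4 with hδdef
  have hδ : 0 < δ := by positivity
  obtain ⟨m, s, η, θ, hη0, hη1, hθ0, hθ1, hms, hm2, hJ, hJ6, hpar⟩ := params δ hδ
  rw [← card_primesTo] at hJ hJ6
  -- the modulus
  have h2mem : 2 ∈ primesTo m := by
    unfold primesTo
    rw [mem_filter, mem_range]
    exact ⟨by omega, Nat.prime_two⟩
  obtain ⟨b, hM⟩ : 2 ∣ ∏ p ∈ primesTo m, p := Finset.dvd_prod_of_mem _ h2mem
  have hb : 1 < b := by
    have h1 : 2 ^ (primesTo m).card ≤ ∏ p ∈ primesTo m, p := by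
      rw [← Finset.prod_const]
      exact Finset.prod_le_prod (fun p _ => by norm_num) fun p hp => (prime_of_mem hp).two_le
    have h2 : 6 ≤ (primesTo m).card := by exact_mod_cast hJ6
    have h3 : 2 ^ 6 ≤ 2 ^ (primesTo m).card := Nat.pow_le_pow_right (by norm_num) h2
    rw [hM] at h1
    omega
  set B : ℕ := b ^ b with hB
  -- the field
  set E : ℕ := 2 * b * B.factorial with hE
  have hEpos : 0 < E := by
    rw [hE]
    have := Nat.factorial_pos B
    positivity
  obtain ⟨K, _, _, _, _, ζ, hζ⟩ := exists_field E hEpos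
  obtain ⟨D, hDpos, hdesc⟩ := descent' K
  have hD' : (0 : ℝ) < D := by exact_mod_cast hDpos
  have hroot : ∀ d : ℕ, d ∣ E → IsPrimitiveRoot (ζ ^ (E / d)) d := by
    intro d hd
    refine hζ.pow hEpos ?_
    rw [Nat.div_mul_cancel hd]
  set κ : ℝ := ε / (4 * D) with hκdef
  have hκ : 0 < κ := by positivity
  obtain ⟨C, hC1, hmain⟩ := approx_product m b s B η θ δ κ hδ hκ hη0 hη1 hθ0 hθ1 hms hJ hJ6 hpar
    hb le_rfl hM
  obtain ⟨N₀, hN₀⟩ := exists_nat_gt (C ^ (2 / ε))
  refine ⟨N₀, ?_⟩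
  intro G _ _ hcardG f
  -- decompose the group
  obtain ⟨ι, hι, n, hn1, ⟨e0⟩⟩ := AddCommGroup.equiv_directSum_zmod_of_finite' G
  have hnz : ∀ i, NeZero (n i) := fun i => ⟨by have := hn1 i; omega⟩
  obtain ⟨e⟩ : Nonempty (G ≃+ (∀ i : {i // n i ≤ B}, ZMod (n i)) ×
      (∀ i : {i // ¬ n i ≤ B}, ZMod (n i))) :=
    ⟨(e0.trans (DirectSum.addEquivProd _)).trans (splitEquiv (fun i => ZMod (n i))
      (fun i => n i ≤ B))⟩
  set N : ℝ := (Fintype.card G : ℝ) with hN
  have hNprod : ((∏ i : {i // n i ≤ B}, (n i : ℝ)) * ∏ i : {i // ¬ n i ≤ B}, (n i : ℝ)) = N := by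
    rw [hN, Fintype.card_congr e.toEquiv, Fintype.card_prod, Fintype.card_pi, Fintype.card_pi]
    push_cast
    congr 1
    · exact Finset.prod_congr rfl fun i _ => by rw [ZMod.card]
    · exact Finset.prod_congr rfl fun i _ => by rw [ZMod.card]
  have hr1 : ∀ p ∈ primesTo m, IsPrimitiveRoot (ζ ^ (E / p)) p := by
    intro p hp
    refine hroot p ?_
    rw [hE, ← hM]
    exact (Finset.dvd_prod_of_mem _ hp).mul_right _
  have hr2 : ∀ d : ℕ, 1 ≤ d → d ≤ B → IsPrimitiveRoot (ζ ^ (E / d)) d := by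
    intro d hd1 hd2
    refine hroot d ?_
    rw [hE]
    exact (Nat.dvd_factorial (by omega) hd2).mul_left _
  have hAp : Approx (4 * κ * N) (C * N ^ (2 * δ))
      (circ fun z => algebraMap ℚ K (f (e.symm z))) := by
    rw [← hNprod]
    exact Approx.inst (hmain K (fun d => ζ ^ (E / d)) hr1 hr2
      {i // n i ≤ B} {i // ¬ n i ≤ B} (fun i => n i) (fun i => n i)
      (fun i => hn1 i) (fun i => i.2) (fun i => not_le.mp i.2)
      (fun z => algebraMap ℚ K (f (e.symm z))))
  have hsub := hAp.submatrix (fun x => e x) (fun x => e x) e.injective e.injective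
  have hcirc : (circ fun z => algebraMap ℚ K (f (e.symm z))).submatrix
      (fun x => e x) (fun x => e x) =
      (Matrix.of (fun x y : G => f (x - y))).map (algebraMap ℚ K) := by
    ext x y
    change algebraMap ℚ K (f (e.symm (e x - e y))) = algebraMap ℚ K (f (x - y))
    congr 2
    rw [← map_sub]
    exact e.symm_apply_apply _
  rw [hcirc] at hsub
  obtain ⟨L, S, hLS, hL, hS, -⟩ := hdesc _ _ _ _ _ hsub
  refine ⟨S, ?_, ?_⟩
  · have hN0 : 0 < N := by
      rw [hN]
      exact_mod_cast Fintype.card_pos_iff.mpr ⟨(0 : G)⟩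
    have hcount : ((univ.filter (fun p : G × G => S p.1 p.2 ≠ 0)).card : ℝ) ≤
        N * (C * N ^ (2 * δ)) := by
      have h1 : ((univ.filter (fun p : G × G => S p.1 p.2 ≠ 0)).card : ℝ) =
          ∑ x : G, ((univ.filter (fun y => S x y ≠ 0)).card : ℝ) := by
        rw [← Nat.cast_sum]
        congr 1
        rw [Finset.card_filter, Fintype.sum_prod_type]
        refine Finset.sum_congr rfl fun x _ => ?_
        rw [Finset.card_filter]
      rw [h1]
      calc ∑ x : G, ((univ.filter (fun y => S x y ≠ 0)).card : ℝ)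
          ≤ ∑ _x : G, C * N ^ (2 * δ) := by
            refine Finset.sum_le_sum fun x _ => ?_
            refine le_trans (le_of_eq ?_) (hS x)
            congr
        _ = N * (C * N ^ (2 * δ)) := by
            rw [Finset.sum_const, card_univ, nsmul_eq_mul]
    refine hcount.trans_lt ?_
    have hCN : C < N ^ (ε / 2) := by
      have h2 : C ^ (2 / ε) < N := by
        refine hN₀.trans_le ?_
        rw [hN]
        exact_mod_cast hcardG
      have h3 : (C ^ (2 / ε)) ^ (ε / 2) < N ^ (ε / 2) :=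
        Real.rpow_lt_rpow (by positivity) h2 (by positivity)
      rwa [← Real.rpow_mul (by linarith), show 2 / ε * (ε / 2) = 1 by field_simp,
        Real.rpow_one] at h3
    have h4 : N ^ (1 + ε) = N * (N ^ (ε / 2) * N ^ (2 * δ)) := by
      rw [← Real.rpow_add hN0, Real.rpow_add hN0, Real.rpow_one]
      congr 2
      rw [hδdef]
      ring
    rw [h4]
    have h5 : 0 < N ^ (2 * δ) := Real.rpow_pos_of_pos hN0 _
    exact mul_lt_mul_of_pos_left (mul_lt_mul_of_pos_right hCN h5) hN0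
  · have h1 : Matrix.of (fun x y : G => f (x - y)) - S = L := by
      rw [hLS]
      abel
    rw [h1]
    refine hL.trans (le_of_eq ?_)
    rw [hκdef]
    field_simp

end Pool.Agent.H85.Rigid
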