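import Pool.Agent.H85.Rigid.Descent

/-!
# Choice of parameters
-/

set_option autoImplicit false
open Finset

namespace Pool.Agent.H85.Rigid

lemma two_pow_ge_pow (k : ℕ) : k ^ 8 ≤ 2 ^ (8 * k) := by
  rw [mul_comm, pow_mul]
  exact Nat.pow_le_pow_left (Nat.lt_two_pow_self).le 8

lemma primeCounting_ge (k : ℕ) (hk : 2 ≤ k) :
    (k : ℝ) ^ 7 / 16 ≤ (Nat.primeCounting (k ^ 8) : ℝ) := by
  have hk' : (2 : ℝ) ≤ k := by exact_mod_cast hk
  have hk0 : (0 : ℝ) < k := by linarith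
  have h1 := Chebyshev.pi_ge (k ^ 8)
  refine le_trans ?_ h1
  have hlogk : Real.log k ≤ k := (Real.log_le_sub_one_of_pos hk0).trans (by linarith)
  have hlogk0 : 0 < Real.log k := Real.log_pos (by linarith)
  have h2 : Real.log ((k ^ 8 : ℕ) : ℝ) = 8 * Real.log k := by
    push_cast
    rw [Real.log_pow]
    norm_num
  have h3 : Real.log (((k ^ 8 : ℕ) : ℝ) + 1) ≤ 1 + 8 * k := by
    have h4 : ((k ^ 8 : ℕ) : ℝ) + 1 ≤ 2 * ((k ^ 8 : ℕ) : ℝ) := by
      have : (1 : ℝ) ≤ ((k ^ 8 : ℕ) : ℝ) := by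
        exact_mod_cast Nat.one_le_pow _ _ (by omega)
      linarith
    have h5 : (0 : ℝ) < ((k ^ 8 : ℕ) : ℝ) + 1 := by positivity
    calc Real.log (((k ^ 8 : ℕ) : ℝ) + 1) ≤ Real.log (2 * ((k ^ 8 : ℕ) : ℝ)) :=
          Real.log_le_log h5 h4
      _ = Real.log 2 + Real.log ((k ^ 8 : ℕ) : ℝ) := by
          rw [Real.log_mul (by norm_num) (by positivity)]
      _ ≤ 1 + 8 * k := by
          rw [h2]
          have := Real.log_two_lt_d9
          linarith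
  have h6 : (k : ℝ) ^ 8 / 2 ≤ ((k ^ 8 : ℕ) : ℝ) * Real.log 2 - Real.log (((k ^ 8 : ℕ) : ℝ) + 1) := by
    have hl := Real.log_two_gt_d9
    have h7 : (128 : ℝ) * k ≤ (k : ℝ) ^ 8 := by
      have : (2 : ℝ) ^ 7 ≤ (k : ℝ) ^ 7 := pow_le_pow_left₀ (by norm_num) hk' 7
      calc (128 : ℝ) * k = 2 ^ 7 * k := by norm_num
        _ ≤ (k : ℝ) ^ 7 * k := mul_le_mul_of_nonneg_right this hk0.le
        _ = (k : ℝ) ^ 8 := by ring
    push_cast at h3 ⊢
    nlinarith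
  rw [h2, div_le_div_iff₀ (by norm_num) (by positivity)]
  have h8 : (k : ℝ) ^ 7 * (8 * Real.log k) ≤ (k : ℝ) ^ 7 * (8 * k) := by
    apply mul_le_mul_of_nonneg_left _ (by positivity)
    linarith
  calc (k : ℝ) ^ 7 * (8 * Real.log k) ≤ (k : ℝ) ^ 7 * (8 * k) := h8
    _ = (k : ℝ) ^ 8 / 2 * 16 := by ring
    _ ≤ _ := mul_le_mul_of_nonneg_right h6 (by norm_num)

/-- The parameters for the large cyclic factors. -/
lemma params (δ : ℝ) (hδ : 0 < δ) : ∃ (m s : ℕ) (η θ : ℝ), 0 ≤ η ∧ η ≤ 1 / 2 ∧ 0 < θ ∧ θ ≤ 1 ∧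
    m ≤ 2 ^ s ∧ 2 ≤ m ∧ 3 ≤ η ^ 2 * (Nat.primeCounting m : ℝ) ∧
    (6 : ℝ) ≤ Nat.primeCounting m ∧
    (θ ^ (-(2 * η)) * (1 + θ * m)) ^ (2 * (s + 1)) ≤ (2 : ℝ) ^ (δ / 2) := by
  obtain ⟨k0, hk0⟩ := exists_nat_gt (1188 / (δ * Real.log 2))
  set k := max 48 k0 with hk
  have hk48 : 48 ≤ k := le_max_left _ _
  have hkk0 : k0 ≤ k := le_max_right _ _
  have hkr : (48 : ℝ) ≤ k := by exact_mod_cast hk48
  have hkpos : (0 : ℝ) < k := by linarith
  have hJ := primeCounting_ge k (by omega)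
  have hlog2 : 0 < Real.log 2 := Real.log_pos (by norm_num)
  refine ⟨k ^ 8, 8 * k, ((k : ℝ) ^ 3)⁻¹, ((k : ℝ) ^ 16)⁻¹, by positivity, ?_, by positivity, ?_,
    two_pow_ge_pow k, ?_, ?_, ?_, ?_⟩
  · rw [inv_le_comm₀ (by positivity) (by norm_num)]
    have : (48 : ℝ) ^ 3 ≤ (k : ℝ) ^ 3 := pow_le_pow_left₀ (by norm_num) hkr 3
    norm_num at this ⊢
    linarith
  · apply inv_le_one_of_one_le₀
    exact one_le_pow₀ (by linarith)
  · calc 2 ≤ k := by omega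
      _ = k ^ 1 := (pow_one k).symm
      _ ≤ k ^ 8 := Nat.pow_le_pow_right (by omega) (by norm_num)
  · calc (3 : ℝ) ≤ k / 16 := by linarith
      _ = (((k : ℝ) ^ 3)⁻¹) ^ 2 * ((k : ℝ) ^ 7 / 16) := by field_simp
      _ ≤ _ := mul_le_mul_of_nonneg_left hJ (by positivity)
  · refine le_trans ?_ hJ
    have : (48 : ℝ) ^ 7 ≤ (k : ℝ) ^ 7 := pow_le_pow_left₀ (by norm_num) hkr 7
    norm_num at this ⊢
    linarith
  · have hlogk : Real.log k ≤ k := (Real.log_le_sub_one_of_pos hkpos).trans (by linarith)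
    have e1 : (((k : ℝ) ^ 16)⁻¹) ^ (-(2 * ((k : ℝ) ^ 3)⁻¹)) ≤ Real.exp (32 / (k : ℝ) ^ 2) := by
      rw [Real.rpow_def_of_pos (by positivity)]
      apply Real.exp_le_exp.mpr
      rw [Real.log_inv, Real.log_pow]
      have h9 : (-(((16 : ℕ) : ℝ) * Real.log k)) * (-(2 * ((k : ℝ) ^ 3)⁻¹)) =
          32 * Real.log k / (k : ℝ) ^ 3 := by
        push_cast
        field_simp
        ring
      rw [h9, div_le_div_iff₀ (by positivity) (by positivity)]
      have h10 : Real.log k * (k : ℝ) ^ 2 ≤ k * (k : ℝ) ^ 2 :=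
        mul_le_mul_of_nonneg_right hlogk (by positivity)
      nlinarith
    have e2 : 1 + ((k : ℝ) ^ 16)⁻¹ * ((k ^ 8 : ℕ) : ℝ) ≤ Real.exp (1 / (k : ℝ) ^ 2) := by
      have h9 : ((k : ℝ) ^ 16)⁻¹ * ((k ^ 8 : ℕ) : ℝ) ≤ 1 / (k : ℝ) ^ 2 := by
        push_cast
        have h11 : ((k : ℝ) ^ 16)⁻¹ * (k : ℝ) ^ 8 = 1 / (k : ℝ) ^ 8 := by
          field_simp
        rw [h11]
        apply one_div_le_one_div_of_le (by positivity)
        exact pow_le_pow_right₀ (by linarith) (by norm_num)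
      calc 1 + ((k : ℝ) ^ 16)⁻¹ * ((k ^ 8 : ℕ) : ℝ) ≤ 1 / (k : ℝ) ^ 2 + 1 := by linarith
        _ ≤ _ := Real.add_one_le_exp _
    have e3 : (((k : ℝ) ^ 16)⁻¹) ^ (-(2 * ((k : ℝ) ^ 3)⁻¹)) *
        (1 + ((k : ℝ) ^ 16)⁻¹ * ((k ^ 8 : ℕ) : ℝ)) ≤ Real.exp (33 / (k : ℝ) ^ 2) := by
      calc _ ≤ Real.exp (32 / (k : ℝ) ^ 2) * Real.exp (1 / (k : ℝ) ^ 2) :=
            mul_le_mul e1 e2 (by positivity) (Real.exp_pos _).le
        _ = _ := by
          rw [← Real.exp_add]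
          congr 1
          ring
    calc _ ≤ (Real.exp (33 / (k : ℝ) ^ 2)) ^ (2 * (8 * k + 1)) :=
          pow_le_pow_left₀ (by
            have := Real.rpow_nonneg (x := ((k : ℝ) ^ 16)⁻¹) (by positivity)
              (-(2 * ((k : ℝ) ^ 3)⁻¹))
            positivity) e3 _
      _ = Real.exp (((2 * (8 * k + 1) : ℕ) : ℝ) * (33 / (k : ℝ) ^ 2)) := by
          rw [← Real.exp_nat_mul]
      _ ≤ Real.exp (Real.log 2 * (δ / 2)) := by
          apply Real.exp_le_exp.mpr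
          push_cast
          have h12 : (2 * (8 * (k : ℝ) + 1)) * (33 / (k : ℝ) ^ 2) ≤ 594 / k := by
            rw [mul_div_assoc', div_le_div_iff₀ (by positivity) (by positivity)]
            nlinarith
          refine h12.trans ?_
          have h13 : 1188 / (δ * Real.log 2) < k := hk0.trans_le (by exact_mod_cast hkk0)
          rw [div_lt_iff₀ (by positivity)] at h13
          rw [div_le_iff₀ hkpos]
          nlinarith
      _ = (2 : ℝ) ^ (δ / 2) := by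
          rw [Real.rpow_def_of_pos (by norm_num)]

/-- The parameters for the small cyclic factors. -/
lemma params_small (B s : ℕ) (δ : ℝ) (hδ : 0 < δ) : ∃ (η θ : ℝ), 0 < η ∧ η ≤ 1 / 2 ∧ 0 < θ ∧
    θ ≤ 1 ∧ (θ ^ (-(2 * η)) * (1 + θ * B)) ^ (2 * (s + 1)) ≤ (2 : ℝ) ^ δ := by
  have hlog2 : 0 < Real.log 2 := Real.log_pos (by norm_num)
  set θ : ℝ := min 1 (δ * Real.log 2 / (4 * (s + 1) * (B + 1))) with hθ
  have hθ0 : 0 < θ := lt_min one_pos (by positivity)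
  have hθ1 : θ ≤ 1 := min_le_left _ _
  have hθ2 : θ ≤ δ * Real.log 2 / (4 * (s + 1) * (B + 1)) := min_le_right _ _
  set η : ℝ := min (1 / 2) (δ * Real.log 2 / (8 * (s + 1) * (1 + |Real.log θ|))) with hη
  have hη0 : 0 < η := lt_min (by norm_num) (by positivity)
  have hη1 : η ≤ 1 / 2 := min_le_left _ _
  have hη2 : η ≤ δ * Real.log 2 / (8 * (s + 1) * (1 + |Real.log θ|)) := min_le_right _ _
  refine ⟨η, θ, hη0, hη1, hθ0, hθ1, ?_⟩
  have e1 : θ ^ (-(2 * η)) ≤ Real.exp (δ * Real.log 2 / (4 * (s + 1))) := by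
    rw [Real.rpow_def_of_pos hθ0]
    apply Real.exp_le_exp.mpr
    have h1 : Real.log θ * (-(2 * η)) ≤ (1 + |Real.log θ|) * (2 * η) := by
      have := neg_abs_le (Real.log θ)
      nlinarith
    refine h1.trans ?_
    rw [le_div_iff₀ (by positivity)] at hη2 ⊢
    nlinarith
  have e2 : 1 + θ * B ≤ Real.exp (δ * Real.log 2 / (4 * (s + 1))) := by
    have h1 : θ * B ≤ δ * Real.log 2 / (4 * (s + 1)) := by
      rw [le_div_iff₀ (by positivity)] at hθ2 ⊢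
      have : θ * (4 * (↑s + 1)) * B ≤ θ * (4 * (↑s + 1)) * (B + 1) := by
        apply mul_le_mul_of_nonneg_left _ (by positivity)
        linarith
      nlinarith
    calc 1 + θ * B ≤ δ * Real.log 2 / (4 * (s + 1)) + 1 := by linarith
      _ ≤ _ := Real.add_one_le_exp _
  have e3 : θ ^ (-(2 * η)) * (1 + θ * B) ≤ Real.exp (δ * Real.log 2 / (2 * (s + 1))) := by
    calc _ ≤ Real.exp (δ * Real.log 2 / (4 * (s + 1))) * Real.exp (δ * Real.log 2 / (4 * (s + 1))) :=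
          mul_le_mul e1 e2 (by positivity) (Real.exp_pos _).le
      _ = _ := by
        rw [← Real.exp_add]
        congr 1
        field_simp
        ring
  calc _ ≤ (Real.exp (δ * Real.log 2 / (2 * (s + 1)))) ^ (2 * (s + 1)) :=
        pow_le_pow_left₀ (by
          have := Real.rpow_nonneg hθ0.le (-(2 * η))
          positivity) e3 _
    _ = Real.exp (((2 * (s + 1) : ℕ) : ℝ) * (δ * Real.log 2 / (2 * (s + 1)))) := by
        rw [← Real.exp_nat_mul]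
    _ = (2 : ℝ) ^ δ := by
        rw [Real.rpow_def_of_pos (by norm_num)]
        congr 1
        push_cast
        field_simp

end Pool.Agent.H85.Rigid
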