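import Pool.Agent.H85.Rigid.Params

/-!
# The small and the large cyclic factors
-/

set_option autoImplicit false
open Matrix Finset
open scoped Classical

namespace Pool.Agent.H85.Rigid

/-- Small cyclic factors. -/
lemma small_part (B : ℕ) (δ κ : ℝ) (hδ : 0 < δ) (hκ : 0 < κ) : ∃ C : ℝ, 1 ≤ C ∧
    ∀ (K : Type) [Field K] (I : Type) [Fintype I] (n : I → ℕ) [∀ i, NeZero (n i)]
      (_ : ∀ i, 2 ≤ n i) (_ : ∀ i, n i ≤ B) (ω : I → K)
      (_ : ∀ i, IsPrimitiveRoot (ω i) (n i)),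
      Approx (κ * ∏ i, (n i : ℝ)) (C * (∏ i, (n i : ℝ)) ^ δ)
        (piKron fun i => dft (n i) (ω i)) := by
  obtain ⟨η, θ, hη0, hη1, hθ0, hθ1, hpar⟩ := params_small B B δ hδ
  -- threshold for the number of factors
  obtain ⟨k, hk⟩ := exists_nat_gt ((8 * (B + 1) / κ) / η ^ 2)
  refine ⟨max 1 ((B : ℝ) ^ k), le_max_left _ _, ?_⟩
  intro K _ I _ n _ hn2 hnB ω hω
  set N : ℝ := ∏ i, (n i : ℝ) with hN
  have hN2 : (2 : ℝ) ^ (Fintype.card I) ≤ N := by
    rw [hN, ← card_univ, ← Finset.prod_const]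
    refine Finset.prod_le_prod (fun i _ => by norm_num) fun i _ => ?_
    exact_mod_cast hn2 i
  have hN1 : 1 ≤ N := (one_le_pow₀ (by norm_num)).trans hN2
  have hNδ : 1 ≤ N ^ δ := Real.one_le_rpow hN1 hδ.le
  by_cases hcase : k ≤ Fintype.card I
  · refine (approx_piKron_dft n ω hω η θ hη0.le hη1 hθ0 hθ1 B B hnB (Nat.lt_two_pow_self).le).mono
      ?_ ?_
    · rw [← hN]
      have h1 : 8 * ((B : ℝ) + 1) * Real.exp (-(η ^ 2) * Fintype.card I) ≤ κ := by
        have h2 : 8 * ((B : ℝ) + 1) / κ ≤ Real.exp (η ^ 2 * Fintype.card I) := by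
          have h3 : (8 * ((B : ℝ) + 1) / κ) / η ^ 2 < Fintype.card I := by
            refine hk.trans_le ?_
            exact_mod_cast hcase
          rw [div_lt_iff₀ (by positivity)] at h3
          have h4 := Real.add_one_le_exp (η ^ 2 * Fintype.card I)
          linarith
        rw [div_le_iff₀ hκ] at h2
        rw [neg_mul, Real.exp_neg, ← div_eq_mul_inv, div_le_iff₀ (Real.exp_pos _)]
        linarith
      calc 8 * ((B : ℝ) + 1) * N * Real.exp (-(η ^ 2) * Fintype.card I)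
          = (8 * ((B : ℝ) + 1) * Real.exp (-(η ^ 2) * Fintype.card I)) * N := by ring
        _ ≤ κ * N := mul_le_mul_of_nonneg_right h1 (by linarith)
    · have h1 : ((θ ^ (-(2 * η)) * (1 + θ * B)) ^ (Fintype.card I)) ^ (2 * (B + 1)) ≤ N ^ δ := by
        rw [← pow_mul, mul_comm (Fintype.card I), pow_mul]
        have h2 : 0 ≤ (θ ^ (-(2 * η)) * (1 + θ * B)) ^ (2 * (B + 1)) := by
          have := Real.rpow_nonneg hθ0.le (-(2 * η))
          positivity
        calc _ ≤ ((2 : ℝ) ^ δ) ^ (Fintype.card I) := pow_le_pow_left₀ h2 hpar _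
          _ = ((2 : ℝ) ^ (Fintype.card I)) ^ δ := by
              rw [← Real.rpow_natCast, ← Real.rpow_mul (by norm_num), mul_comm,
                Real.rpow_mul (by norm_num), Real.rpow_natCast]
          _ ≤ N ^ δ := Real.rpow_le_rpow (by positivity) hN2 hδ.le
      refine h1.trans ?_
      have h3 : (1 : ℝ) ≤ max 1 ((B : ℝ) ^ k) := le_max_left _ _
      nlinarith
  · -- few factors: everything is bounded
    have hNB : N ≤ max 1 ((B : ℝ) ^ k) := by
      rcases Nat.eq_zero_or_pos (Fintype.card I) with h0 | h0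
      · have : IsEmpty I := Fintype.card_eq_zero_iff.mp h0
        refine le_trans ?_ (le_max_left _ _)
        rw [hN]
        simp
      · obtain ⟨i0⟩ := Fintype.card_pos_iff.mp h0
        have hB1 : (1 : ℝ) ≤ B := by
          have := (hn2 i0).trans (hnB i0)
          exact_mod_cast (by omega : 1 ≤ B)
        refine le_trans ?_ (le_max_right _ _)
        calc N ≤ ∏ _i : I, (B : ℝ) := by
              rw [hN]
              refine Finset.prod_le_prod (fun i _ => by positivity) fun i _ => ?_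
              exact_mod_cast hnB i
          _ = (B : ℝ) ^ (Fintype.card I) := by rw [Finset.prod_const, card_univ]
          _ ≤ (B : ℝ) ^ k := pow_le_pow_right₀ hB1 (by omega)
    have hcard : (Fintype.card (∀ i, ZMod (n i)) : ℝ) = N := by
      rw [Fintype.card_pi, hN]
      push_cast
      exact Finset.prod_congr rfl fun i _ => by rw [ZMod.card]
    have hle : N ≤ max 1 ((B : ℝ) ^ k) * N ^ δ := by
      have h3 : (1 : ℝ) ≤ max 1 ((B : ℝ) ^ k) := le_max_left _ _
      nlinarith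
    refine (Approx.dense (t := max 1 ((B : ℝ) ^ k) * N ^ δ) _ ?_ ?_).mono (by positivity) le_rfl
    · rw [hcard]; exact hle
    · rw [hcard]; exact hle

/-- The set of primes up to `m`. -/
def primesTo (m : ℕ) : Finset ℕ := (Finset.range (m + 1)).filter Nat.Prime

lemma card_primesTo (m : ℕ) : (primesTo m).card = Nat.primeCounting m := by
  rw [Nat.primeCounting, Nat.primeCounting', Nat.count_eq_card_filter_range]
  unfold primesTo
  congr

lemma prime_of_mem {m p : ℕ} (h : p ∈ primesTo m) : p.Prime := (mem_filter.mp h).2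

lemma le_of_mem {m p : ℕ} (h : p ∈ primesTo m) : p ≤ m := by
  have := (mem_filter.mp h).1
  rw [mem_range] at this
  omega

instance {m : ℕ} (p : primesTo m) : NeZero (p : ℕ) := ⟨(prime_of_mem p.2).ne_zero⟩

lemma digits_sum (b x k : ℕ) :
    x % b ^ k = ∑ j ∈ range k, b ^ j * (x / b ^ j % b) := by
  induction k with
  | zero => simp [Nat.mod_one]
  | succ k ih => rw [Nat.mod_pow_succ, Finset.sum_range_succ, ih]

/-- The digit embedding. -/
def digEmb (m b : ℕ) {I : Type} (n k : I → ℕ) (x : ∀ i, ZMod (n i)) :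
    ∀ t : (Σ i : I, Fin (k i)) × primesTo m, ZMod (t.2 : ℕ) :=
  fun t => (((x t.1.1).val / b ^ (t.1.2 : ℕ) % b : ℕ) : ZMod (t.2 : ℕ))

lemma digit_aux (m b : ℕ) (hM : ∏ p ∈ primesTo m, p = 2 * b) (a₁ a₂ a₃ a₄ : ℕ)
    (h1 : a₁ < b) (h2 : a₂ < b) (h3 : a₃ < b) (h4 : a₄ < b)
    (h : ∀ p ∈ primesTo m, ((a₁ : ZMod p) - (a₂ : ZMod p) = (a₃ : ZMod p) - (a₄ : ZMod p))) :
    (a₁ : ℤ) - a₂ = (a₃ : ℤ) - a₄ := by
  have hdvd : ∀ p ∈ primesTo m, (p : ℤ) ∣ ((a₁ : ℤ) - a₂) - ((a₃ : ℤ) - a₄) := by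
    intro p hp
    rw [← ZMod.intCast_zmod_eq_zero_iff_dvd]
    push_cast
    rw [h p hp, sub_self]
  have hdvd2 : ((2 * b : ℕ) : ℤ) ∣ ((a₁ : ℤ) - a₂) - ((a₃ : ℤ) - a₄) := by
    rw [← hM, Int.natCast_dvd]
    refine Finset.prod_primes_dvd _ (fun p hp => (prime_of_mem hp).prime) fun p hp => ?_
    rw [← Int.natCast_dvd]
    exact hdvd p hp
  have h0 := Int.eq_zero_of_abs_lt_dvd hdvd2 (by
    rw [abs_lt]
    push_cast
    constructor <;> omega)
  omega

lemma digEmb_emb (m b : ℕ) (hb : 0 < b) (hM : ∏ p ∈ primesTo m, p = 2 * b) {I : Type}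
    (n k : I → ℕ) [∀ i, NeZero (n i)] (hk : ∀ i, n i ≤ b ^ k i) : Emb (digEmb m b n k) := by
  intro x y x' y' h
  funext i
  -- equality of the differences of the digits
  have hdig : ∀ j : Fin (k i),
      (((x i).val / b ^ (j : ℕ) % b : ℕ) : ℤ) - (((y i).val / b ^ (j : ℕ) % b : ℕ) : ℤ) =
      (((x' i).val / b ^ (j : ℕ) % b : ℕ) : ℤ) - (((y' i).val / b ^ (j : ℕ) % b : ℕ) : ℤ) := by
    intro j
    refine digit_aux m b hM _ _ _ _ (Nat.mod_lt _ hb) (Nat.mod_lt _ hb) (Nat.mod_lt _ hb)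
      (Nat.mod_lt _ hb) fun p hp => ?_
    exact congrFun h (⟨i, j⟩, ⟨p, hp⟩)
  have hval : ∀ z : ZMod (n i), (z.val : ℤ) =
      ∑ j ∈ range (k i), (b : ℤ) ^ j * ((z.val / b ^ j % b : ℕ) : ℤ) := by
    intro z
    have h1 : z.val < b ^ k i := (ZMod.val_lt z).trans_le (hk i)
    have h2 := digits_sum b z.val (k i)
    rw [Nat.mod_eq_of_lt h1] at h2
    exact_mod_cast h2
  have hsum : ((x i).val : ℤ) - (y i).val = ((x' i).val : ℤ) - (y' i).val := by
    rw [hval (x i), hval (y i), hval (x' i), hval (y' i), ← Finset.sum_sub_distrib,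
      ← Finset.sum_sub_distrib]
    refine Finset.sum_congr rfl fun j hj => ?_
    rw [mem_range] at hj
    have := hdig ⟨j, hj⟩
    simp only at this
    rw [← mul_sub, ← mul_sub, this]
  have hcast : (((x i).val : ℤ) - (y i).val : ZMod (n i)) =
      (((x' i).val : ℤ) - (y' i).val : ZMod (n i)) := by
    exact_mod_cast congrArg (Int.cast : ℤ → ZMod (n i)) hsum
  simpa using hcast

end Pool.Agent.H85.Rigid
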