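import Pool.Agent.H85.Rigid.Approx

/-!
# Kronecker products of many small matrices
-/

set_option autoImplicit false
open Matrix Finset
open scoped Classical

namespace Pool.Agent.H85.Rigid

variable {K : Type} [Field K]

section pi
variable {T : Type} [Fintype T] {ι κ μ : T → Type}

/-- Kronecker product of a family of matrices. -/
def piKron (A : ∀ t, Matrix (ι t) (κ t) K) : Matrix (∀ t, ι t) (∀ t, κ t) K :=
  fun x y => ∏ t, A t (x t) (y t)

lemma piKron_mul [∀ t, Fintype (κ t)] (A : ∀ t, Matrix (ι t) (κ t) K)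
    (B : ∀ t, Matrix (κ t) (μ t) K) :
    piKron (fun t => A t * B t) = piKron A * piKron B := by
  ext x z
  simp only [piKron, Matrix.mul_apply]
  rw [Finset.prod_univ_sum, Fintype.piFinset_univ]
  refine Finset.sum_congr rfl fun y _ => ?_
  rw [← Finset.prod_mul_distrib]

lemma piKron_transpose (A : ∀ t, Matrix (ι t) (κ t) K) :
    (piKron A)ᵀ = piKron (fun t => (A t)ᵀ) := rfl

/-- A tail bound for sums of independent centred variables, in counting form. -/
lemma card_tail_le [∀ t, Fintype (ι t)] (X : ∀ t, ι t → ℝ)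
    (h1 : ∀ t i, |X t i| ≤ 1) (h2 : ∀ t, ∑ i, X t i = 0)
    (h3 : ∀ t, ∑ i, (X t i) ^ 2 ≤ (Fintype.card (ι t) : ℝ) / 4) (η : ℝ) (hη : 0 ≤ η)
    (hη' : η ≤ 1 / 2) :
    ((univ.filter fun x : ∀ t, ι t => η * Fintype.card T < ∑ t, X t (x t)).card : ℝ) ≤
      (Fintype.card (∀ t, ι t)) * Real.exp (-(η ^ 2) * Fintype.card T) := by
  set n : ℝ := (Fintype.card T : ℝ) with hn
  have e1 : ((univ.filter fun x : ∀ t, ι t => η * n < ∑ t, X t (x t)).card : ℝ) ≤
      ∑ x : ∀ t, ι t, Real.exp (2 * η * (∑ t, X t (x t) - η * n)) := by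
    rw [Finset.card_eq_sum_ones, Nat.cast_sum]
    refine (Finset.sum_le_sum (f := fun _ => ((1 : ℕ) : ℝ))
      (g := fun x : ∀ t, ι t => Real.exp (2 * η * (∑ t, X t (x t) - η * n))) ?_).trans
      (Finset.sum_le_sum_of_subset_of_nonneg (subset_univ _) ?_)
    · intro x hx
      have hx' := (mem_filter.mp hx).2
      have : 0 ≤ 2 * η * (∑ t, X t (x t) - η * n) := by
        apply mul_nonneg (by positivity)
        linarith
      have := Real.one_le_exp this
      simpa using this
    · intro x _ _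
      exact (Real.exp_pos _).le
  refine e1.trans ?_
  have e2 : ∑ x : ∀ t, ι t, Real.exp (2 * η * (∑ t, X t (x t) - η * n)) =
      Real.exp (-(2 * η ^ 2) * n) * ∏ t, ∑ i, Real.exp (2 * η * X t i) := by
    rw [Finset.prod_univ_sum, Fintype.piFinset_univ, Finset.mul_sum]
    refine Finset.sum_congr rfl fun x _ => ?_
    rw [← Real.exp_sum, ← Real.exp_add, ← Finset.mul_sum]
    congr 1
    ring
  rw [e2]
  have e3 : ∀ t, ∑ i, Real.exp (2 * η * X t i) ≤ (Fintype.card (ι t) : ℝ) * Real.exp (η ^ 2) := by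
    intro t
    have e4 : ∀ i, Real.exp (2 * η * X t i) ≤ 1 + 2 * η * X t i + (2 * η * X t i) ^ 2 := by
      intro i
      have h5 : |2 * η * X t i| ≤ 1 := by
        rw [abs_mul, abs_of_nonneg (by positivity : 0 ≤ 2 * η)]
        have := h1 t i
        have h6 : 0 ≤ |X t i| := abs_nonneg _
        nlinarith
      have h7 := Real.abs_exp_sub_one_sub_id_le h5
      have h8 := (abs_le.mp h7).2
      linarith
    calc ∑ i, Real.exp (2 * η * X t i)
        ≤ ∑ i, (1 + 2 * η * X t i + (2 * η * X t i) ^ 2) := Finset.sum_le_sum fun i _ => e4 i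
      _ = Fintype.card (ι t) + 2 * η * ∑ i, X t i + (2 * η) ^ 2 * ∑ i, (X t i) ^ 2 := by
          rw [Finset.sum_add_distrib, Finset.sum_add_distrib, Finset.mul_sum, Finset.mul_sum]
          simp [mul_pow]
      _ ≤ Fintype.card (ι t) + 2 * η * 0 + (2 * η) ^ 2 * ((Fintype.card (ι t) : ℝ) / 4) := by
          rw [h2 t]
          have := h3 t
          have h9 : 0 ≤ (2 * η) ^ 2 := by positivity
          nlinarith
      _ = (Fintype.card (ι t) : ℝ) * (η ^ 2 + 1) := by ring
      _ ≤ (Fintype.card (ι t) : ℝ) * Real.exp (η ^ 2) :=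
          mul_le_mul_of_nonneg_left (Real.add_one_le_exp _) (by positivity)
  calc Real.exp (-(2 * η ^ 2) * n) * ∏ t, ∑ i, Real.exp (2 * η * X t i)
      ≤ Real.exp (-(2 * η ^ 2) * n) * ∏ t : T, ((Fintype.card (ι t) : ℝ) * Real.exp (η ^ 2)) := by
        refine mul_le_mul_of_nonneg_left ?_ (Real.exp_pos _).le
        refine Finset.prod_le_prod (fun t _ => Finset.sum_nonneg fun i _ => (Real.exp_pos _).le)
          fun t _ => e3 t
    _ = (Fintype.card (∀ t, ι t)) * Real.exp (-(η ^ 2) * n) := by
        rw [Finset.prod_mul_distrib, Finset.prod_const, card_univ, Fintype.card_pi, Nat.cast_prod,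
          ← Real.exp_nat_mul]
        rw [mul_left_comm, ← Real.exp_add]
        congr 2
        rw [hn]
        ring

/-- Counting points of a Hamming ball. -/
lemma card_ball_le [∀ t, Fintype (ι t)] (x : ∀ t, ι t) (θ D h : ℝ) (hθ : 0 < θ) (hθ1 : θ ≤ 1)
    (hD : ∀ t, (Fintype.card (ι t) : ℝ) ≤ D) :
    ((univ.filter fun y : ∀ t, ι t => (∑ t, if x t = y t then (0 : ℝ) else 1) ≤ h).card : ℝ) ≤
      θ ^ (-h) * (1 + θ * D) ^ (Fintype.card T) := by
  have e1 : ((univ.filter fun y : ∀ t, ι t =>
        (∑ t, if x t = y t then (0 : ℝ) else 1) ≤ h).card : ℝ) ≤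
      ∑ y : ∀ t, ι t, θ ^ (-h) * ∏ t, (if x t = y t then (1 : ℝ) else θ) := by
    rw [Finset.card_eq_sum_ones, Nat.cast_sum]
    refine (Finset.sum_le_sum (f := fun _ => ((1 : ℕ) : ℝ))
      (g := fun y : ∀ t, ι t => θ ^ (-h) * ∏ t, (if x t = y t then (1 : ℝ) else θ)) ?_).trans
      (Finset.sum_le_sum_of_subset_of_nonneg (subset_univ _) ?_)
    · intro y hy
      have hy' := (mem_filter.mp hy).2
      have h1 : ∏ t, (if x t = y t then (1 : ℝ) else θ) =
          θ ^ (∑ t, if x t = y t then (0 : ℝ) else 1) := by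
        rw [Real.rpow_sum_of_pos hθ]
        refine Finset.prod_congr rfl fun t _ => ?_
        split_ifs <;> simp
      rw [h1, ← Real.rpow_add hθ]
      have h2 : -h + (∑ t, if x t = y t then (0 : ℝ) else 1) ≤ 0 := by linarith
      have := Real.one_le_rpow_of_pos_of_le_one_of_nonpos hθ hθ1 h2
      simpa using this
    · intro y _ _
      refine mul_nonneg (Real.rpow_nonneg hθ.le _) (Finset.prod_nonneg fun t _ => ?_)
      split_ifs
      · exact zero_le_one
      · exact hθ.le
  refine e1.trans ?_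
  rw [← Finset.mul_sum]
  refine mul_le_mul_of_nonneg_left ?_ (Real.rpow_nonneg hθ.le _)
  have e2 : ∑ y : ∀ t, ι t, ∏ t, (if x t = y t then (1 : ℝ) else θ) =
      ∏ t, ∑ j : ι t, (if x t = j then (1 : ℝ) else θ) := by
    rw [Finset.prod_univ_sum, Fintype.piFinset_univ]
  rw [e2, ← card_univ, ← Finset.prod_const]
  refine Finset.prod_le_prod (fun t _ => Finset.sum_nonneg fun i _ => ?_) fun t _ => ?_
  · split_ifs
    · exact zero_le_one
    · exact hθ.le
  · calc ∑ j : ι t, (if x t = j then (1 : ℝ) else θ)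
        ≤ ∑ j : ι t, ((if x t = j then (1 : ℝ) else 0) + θ) := by
          refine Finset.sum_le_sum fun j _ => ?_
          split_ifs <;> linarith
      _ = 1 + θ * Fintype.card (ι t) := by
          rw [Finset.sum_add_distrib, Finset.sum_ite_eq]
          simp [mul_comm]
      _ ≤ 1 + θ * D := by
          have := mul_le_mul_of_nonneg_left (hD t) hθ.le
          linarith

/-- `E` is elementary with respect to `R`: off the diagonal it only has entries with row in `R` and
column outside `R`. -/
def EType {α : Type} (R : Finset α) (E : Matrix α α K) : Prop :=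
  ∀ i j, E i j ≠ 0 → i = j ∨ (i ∈ R ∧ j ∉ R)

/-- The centred indicator of `R`. -/
noncomputable def cind {α : Type} [Fintype α] (R : Finset α) (i : α) : ℝ :=
  (if i ∈ R then (1 : ℝ) else 0) - (R.card : ℝ) / Fintype.card α

lemma cind_abs_le {α : Type} [Fintype α] (R : Finset α) (i : α) : |cind R i| ≤ 1 := by
  have h0 : 0 < (Fintype.card α : ℝ) := by
    exact_mod_cast Fintype.card_pos_iff.mpr ⟨i⟩
  have h1 : (R.card : ℝ) / Fintype.card α ≤ 1 := by
    rw [div_le_one h0]
    exact_mod_cast card_le_univ R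
  have h2 : 0 ≤ (R.card : ℝ) / Fintype.card α := by positivity
  unfold cind
  rw [abs_le]
  split_ifs <;> constructor <;> linarith

lemma cind_sum {α : Type} [Fintype α] (R : Finset α) : ∑ i, cind R i = 0 := by
  unfold cind
  rw [Finset.sum_sub_distrib, Finset.sum_const, card_univ, nsmul_eq_mul]
  rcases isEmpty_or_nonempty α with h | h
  · simp
  · have h0 : 0 < (Fintype.card α : ℝ) := by
      exact_mod_cast Fintype.card_pos_iff.mpr h
    rw [mul_div_cancel₀ _ h0.ne']
    simp

lemma cind_sum_sq {α : Type} [Fintype α] (R : Finset α) :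
    ∑ i, (cind R i) ^ 2 ≤ (Fintype.card α : ℝ) / 4 := by
  rcases isEmpty_or_nonempty α with h | h
  · simp
  · have h0 : 0 < (Fintype.card α : ℝ) := by
      exact_mod_cast Fintype.card_pos_iff.mpr h
    set p : ℝ := (R.card : ℝ) / Fintype.card α with hp
    have e1 : ∀ i, (cind R i) ^ 2 = (1 - 2 * p) * (if i ∈ R then (1 : ℝ) else 0) + p ^ 2 := by
      intro i
      unfold cind
      rw [← hp]
      split_ifs <;> ring
    have e2 : ∑ i, (cind R i) ^ 2 = (1 - 2 * p) * R.card + Fintype.card α * p ^ 2 := by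
      simp_rw [e1]
      rw [Finset.sum_add_distrib, ← Finset.mul_sum, Finset.sum_const, card_univ, nsmul_eq_mul]
      simp
    have e3 : (R.card : ℝ) = p * Fintype.card α := by
      rw [hp]; field_simp
    rw [e2, e3]
    nlinarith [mul_nonneg h0.le (sq_nonneg (2 * p - 1))]

/-- Key lemma: a Kronecker product of elementary matrices is close to low rank. -/
lemma approx_piKron_EType [∀ t, Fintype (ι t)] (R : ∀ t, Finset (ι t))
    (E : ∀ t, Matrix (ι t) (ι t) K) (hE : ∀ t, EType (R t) (E t)) (η θ D : ℝ) (hη : 0 ≤ η)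
    (hη' : η ≤ 1 / 2) (hθ : 0 < θ) (hθ1 : θ ≤ 1) (hD : ∀ t, (Fintype.card (ι t) : ℝ) ≤ D) :
    Approx (4 * (Fintype.card (∀ t, ι t)) * Real.exp (-(η ^ 2) * Fintype.card T))
      ((θ ^ (-(2 * η)) * (1 + θ * D)) ^ (Fintype.card T)) (piKron E) := by
  set n : ℝ := (Fintype.card T : ℝ) with hn
  set N : ℝ := (Fintype.card (∀ t, ι t) : ℝ) with hN
  -- the statistic
  set a : (∀ t, ι t) → ℝ := fun x => ∑ t, cind (R t) (x t) with ha
  set bad : Finset (∀ t, ι t) := univ.filter fun x => η * n < |a x| with hbad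
  have hbadcard : (bad.card : ℝ) ≤ 2 * N * Real.exp (-(η ^ 2) * n) := by
    have hsub : bad ⊆ (univ.filter fun x : ∀ t, ι t => η * n < ∑ t, cind (R t) (x t)) ∪
        (univ.filter fun x : ∀ t, ι t => η * n < ∑ t, -cind (R t) (x t)) := by
      intro x hx
      have hx' := (mem_filter.mp hx).2
      rw [lt_abs] at hx'
      rw [mem_union, mem_filter, mem_filter]
      rcases hx' with h | h
      · exact Or.inl ⟨mem_univ _, h⟩
      · right
        refine ⟨mem_univ _, ?_⟩
        rw [Finset.sum_neg_distrib]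
        exact h
    have h1 := card_tail_le (fun t i => cind (R t) i) (fun t i => cind_abs_le _ _)
      (fun t => cind_sum _) (fun t => cind_sum_sq _) η hη hη'
    have h2 := card_tail_le (fun t i => -cind (R t) i)
      (fun t i => by rw [abs_neg]; exact cind_abs_le _ _)
      (fun t => by rw [Finset.sum_neg_distrib, cind_sum, neg_zero])
      (fun t => by simp only [neg_sq]; exact cind_sum_sq _) η hη hη'
    have h3 : (bad.card : ℝ) ≤
        ((univ.filter fun x : ∀ t, ι t => η * n < ∑ t, cind (R t) (x t)).card : ℝ) +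
        ((univ.filter fun x : ∀ t, ι t => η * n < ∑ t, -cind (R t) (x t)).card : ℝ) := by
      exact_mod_cast (card_le_card hsub).trans (card_union_le _ _)
    linarith
  -- the decomposition
  set wr : (∀ t, ι t) → K := fun x => if x ∈ bad then 1 else 0 with hwr
  set A := piKron E with hA
  set L : Matrix (∀ t, ι t) (∀ t, ι t) K :=
    Matrix.diagonal wr * A + (Matrix.diagonal (1 - wr) * A) * Matrix.diagonal wr with hL
  set S : Matrix (∀ t, ι t) (∀ t, ι t) K :=
    (Matrix.diagonal (1 - wr) * A) * Matrix.diagonal (1 - wr) with hS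
  have hrankd : ((Matrix.diagonal wr).rank : ℝ) ≤ 2 * N * Real.exp (-(η ^ 2) * n) := by
    refine le_trans ?_ hbadcard
    rw [Matrix.rank_diagonal]
    have : Fintype.card { i // wr i ≠ 0 } = bad.card := by
      rw [Fintype.card_subtype]
      congr 1
      ext x
      rw [mem_filter]
      simp only [hwr, mem_univ, true_and]
      split_ifs with h
      · simp [h]
      · simp [h]
    rw [this]
  have hSentry : ∀ x y, S x y ≠ 0 → x ∉ bad ∧ y ∉ bad ∧ A x y ≠ 0 := by
    intro x y hxy
    rw [hS, Matrix.mul_diagonal, Matrix.diagonal_mul] at hxy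
    refine ⟨?_, ?_, ?_⟩
    · intro hx
      apply hxy
      simp [hwr, hx]
    · intro hy
      apply hxy
      simp [hwr, hy]
    · intro h
      apply hxy
      simp [h]
  have hdist : ∀ x y, S x y ≠ 0 →
      (∑ t, if x t = y t then (0 : ℝ) else 1) ≤ 2 * η * n := by
    intro x y hxy
    obtain ⟨hx, hy, hne⟩ := hSentry x y hxy
    have hx1 : |a x| ≤ η * n := by
      by_contra hcon
      exact hx (mem_filter.mpr ⟨mem_univ _, not_le.mp hcon⟩)
    have hy1 : |a y| ≤ η * n := by
      by_contra hcon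
      exact hy (mem_filter.mpr ⟨mem_univ _, not_le.mp hcon⟩)
    have h1 : (∑ t, if x t = y t then (0 : ℝ) else 1) = a x - a y := by
      rw [ha]
      simp only
      rw [← Finset.sum_sub_distrib]
      refine Finset.sum_congr rfl fun t _ => ?_
      have h2 : E t (x t) (y t) ≠ 0 := by
        rw [hA, piKron, Finset.prod_ne_zero_iff] at hne
        exact hne t (mem_univ _)
      rcases hE t _ _ h2 with h3 | ⟨h3, h4⟩
      · rw [if_pos h3, h3, sub_self]
      · have h5 : x t ≠ y t := by
          intro h6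
          rw [h6] at h3
          exact h4 h3
        rw [if_neg h5]
        unfold cind
        rw [if_pos h3, if_neg h4]
        ring
    rw [h1]
    have := (abs_le.mp hx1).2
    have := (abs_le.mp hy1).1
    linarith
  have hpow : θ ^ (-(2 * η * n)) * (1 + θ * D) ^ (Fintype.card T) =
      (θ ^ (-(2 * η)) * (1 + θ * D)) ^ (Fintype.card T) := by
    rw [mul_pow, ← Real.rpow_natCast (θ ^ (-(2 * η))), ← Real.rpow_mul hθ.le]
    congr 2
    rw [hn]
    ring
  refine ⟨L, S, ?_, ?_, ?_, ?_⟩
  · rw [hL, hS]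
    have h1 : (Matrix.diagonal wr : Matrix _ _ K) + Matrix.diagonal (1 - wr) = 1 := by
      rw [Matrix.diagonal_add, ← Matrix.diagonal_one]
      congr 1
      ext x
      simp
    rw [add_assoc, ← Matrix.mul_add, h1, Matrix.mul_one, ← Matrix.add_mul, h1, Matrix.one_mul]
  · have h1 := rank_add_le' (Matrix.diagonal wr * A)
      ((Matrix.diagonal (1 - wr) * A) * Matrix.diagonal wr)
    have h2 : (Matrix.diagonal wr * A).rank ≤ (Matrix.diagonal wr).rank := rank_mul_le_left _ _
    have h3 : ((Matrix.diagonal (1 - wr) * A) * Matrix.diagonal wr).rank ≤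
        (Matrix.diagonal wr).rank := rank_mul_le_right _ _
    have h4 : (L.rank : ℝ) ≤ (Matrix.diagonal wr).rank + (Matrix.diagonal wr).rank := by
      exact_mod_cast h1.trans (add_le_add h2 h3)
    linarith
  · intro x
    rw [← hpow]
    refine le_trans ?_ (card_ball_le x θ D (2 * η * n) hθ hθ1 hD)
    have : (univ.filter fun y => S x y ≠ 0) ⊆
        (univ.filter fun y : ∀ t, ι t => (∑ t, if x t = y t then (0 : ℝ) else 1) ≤ 2 * η * n) := by
      intro y hy
      exact mem_filter.mpr ⟨mem_univ _, hdist x y (mem_filter.mp hy).2⟩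
    exact_mod_cast card_le_card this
  · intro y
    rw [← hpow]
    refine le_trans ?_ (card_ball_le y θ D (2 * η * n) hθ hθ1 hD)
    have : (univ.filter fun x => S x y ≠ 0) ⊆
        (univ.filter fun x : ∀ t, ι t => (∑ t, if y t = x t then (0 : ℝ) else 1) ≤ 2 * η * n) := by
      intro x hx
      refine mem_filter.mpr ⟨mem_univ _, ?_⟩
      have := hdist x y (mem_filter.mp hx).2
      simpa only [eq_comm] using this
    exact_mod_cast card_le_card this

end pi

end Pool.Agent.H85.Rigid
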