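import Pool.Agent.H85.Rigid.PiKron

/-!
# Factoring triangular matrices into few elementary ones
-/

set_option autoImplicit false
open Matrix Finset
open scoped Classical

namespace Pool.Agent.H85.Rigid

variable {K : Type} [Field K]

/-- `Fac l A`: `A` is a product of `l` elementary matrices. -/
def Fac {α : Type} [Fintype α] [DecidableEq α] : ℕ → Matrix α α K → Prop
  | 0, A => A = 1
  | l + 1, A => ∃ (R : Finset α) (E B : Matrix α α K), EType R E ∧ Fac l B ∧ A = E * B

lemma approx_piKron_Fac {T : Type} [Fintype T] {ι : T → Type} [∀ t, Fintype (ι t)]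
    [∀ t, DecidableEq (ι t)] (η θ D : ℝ) (hη : 0 ≤ η)
    (hη' : η ≤ 1 / 2) (hθ : 0 < θ) (hθ1 : θ ≤ 1) (hD0 : 0 ≤ D)
    (hD : ∀ t, (Fintype.card (ι t) : ℝ) ≤ D) (l : ℕ) :
    ∀ (A : ∀ t, Matrix (ι t) (ι t) K), (∀ t, Fac l (A t)) →
    Approx (l * (4 * (Fintype.card (∀ t, ι t)) * Real.exp (-(η ^ 2) * Fintype.card T)))
      (((θ ^ (-(2 * η)) * (1 + θ * D)) ^ (Fintype.card T)) ^ l) (piKron A) := by
  have ht : 0 ≤ (θ ^ (-(2 * η)) * (1 + θ * D)) ^ (Fintype.card T) := by
    have := Real.rpow_nonneg hθ.le (-(2 * η))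
    positivity
  induction l with
  | zero =>
    intro A hA
    have h1 : piKron A = 1 := by
      ext x y
      simp only [piKron]
      by_cases hxy : x = y
      · subst hxy
        rw [Matrix.one_apply_eq]
        refine Finset.prod_eq_one fun t _ => ?_
        rw [show A t = 1 from hA t, Matrix.one_apply_eq]
      · rw [Matrix.one_apply_ne hxy]
        obtain ⟨t, ht'⟩ := Function.ne_iff.mp hxy
        refine Finset.prod_eq_zero (mem_univ t) ?_
        rw [show A t = 1 from hA t, Matrix.one_apply_ne ht']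
    rw [h1]
    refine Approx.one.mono ?_ ?_
    · simp
    · simp
  | succ l ih =>
    intro A hA
    choose R E B hE hB hAEB using hA
    have h1 : piKron A = piKron E * piKron B := by
      rw [← piKron_mul]
      congr 1
      funext t
      exact hAEB t
    rw [h1]
    have h2 := approx_piKron_EType R E hE η θ D hη hη' hθ hθ1 hD
    have h3 := ih B hB
    refine (h2.mul ht (pow_nonneg ht l) h3).mono ?_ ?_
    · push_cast
      ring_nf
      exact le_refl _
    · rw [pow_succ']

/-- Block diagonal truncation with blocks of size `2 ^ s`. -/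
def trunc {d : ℕ} (s : ℕ) (A : Matrix (Fin d) (Fin d) K) : Matrix (Fin d) (Fin d) K :=
  fun i j => if (i : ℕ) / 2 ^ s = (j : ℕ) / 2 ^ s then A i j else 0

lemma fac_trunc {d : ℕ} (A : Matrix (Fin d) (Fin d) K) (hA : ∀ i j, i < j → A i j = 0)
    (hA' : ∀ i, A i i ≠ 0) (s : ℕ) : Fac (s + 1) (trunc s A) := by
  induction s with
  | zero =>
    refine ⟨∅, trunc 0 A, 1, ?_, rfl, (Matrix.mul_one _).symm⟩
    intro i j hij
    left
    by_contra hne
    apply hij
    unfold trunc
    rw [if_neg]
    simpa [Fin.ext_iff] using hne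
  | succ s ih =>
    have hlow : (trunc s A).IsLowerTriangular := by
      intro i j hij
      have hij' : i < j := hij
      unfold trunc
      rw [hA i j hij']
      simp
    have hdet : (trunc s A).det ≠ 0 := by
      rw [Matrix.det_of_isLowerTriangular _ hlow, Finset.prod_ne_zero_iff]
      intro i _
      simp only [trunc, if_true]
      exact hA' i
    have hunit : IsUnit (trunc s A).det := isUnit_iff_ne_zero.mpr hdet
    let _ : Invertible (trunc s A) := Matrix.invertibleOfIsUnitDet _ hunit
    have hb1 : (trunc s A).BlockTriangular (fun i : Fin d => (i : ℕ) / 2 ^ s) := by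
      intro i j hij
      simp only [trunc]
      rw [if_neg (ne_of_gt hij)]
    have hb2 : (trunc s A).BlockTriangular
        (fun i : Fin d => OrderDual.toDual ((i : ℕ) / 2 ^ s)) := by
      intro i j hij
      simp only [trunc]
      rw [if_neg]
      have : (i : ℕ) / 2 ^ s < (j : ℕ) / 2 ^ s := hij
      exact ne_of_lt this
    have hi1 := Matrix.blockTriangular_inv_of_blockTriangular hb1
    have hi2 := Matrix.blockTriangular_inv_of_blockTriangular hb2
    have hinv : ∀ k j : Fin d, (trunc s A)⁻¹ k j ≠ 0 → (k : ℕ) / 2 ^ s = (j : ℕ) / 2 ^ s := by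
      intro k j hkj
      by_contra hne
      rcases lt_or_gt_of_ne hne with h | h
      · exact hkj (hi2 h)
      · exact hkj (hi1 h)
    refine ⟨univ.filter fun i : Fin d => ((i : ℕ) / 2 ^ s) % 2 = 1,
      trunc (s + 1) A * (trunc s A)⁻¹, trunc s A, ?_, ih, ?_⟩
    · intro i j hij
      have h1 : trunc (s + 1) A * (trunc s A)⁻¹ =
          1 + (trunc (s + 1) A - trunc s A) * (trunc s A)⁻¹ := by
        rw [Matrix.sub_mul, Matrix.mul_nonsing_inv _ hunit]
        abel
      rw [h1] at hij
      by_cases hne : i = j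
      · exact Or.inl hne
      right
      rw [Matrix.add_apply, Matrix.one_apply_ne hne, zero_add, Matrix.mul_apply] at hij
      obtain ⟨k, _, hk⟩ := Finset.exists_ne_zero_of_sum_ne_zero hij
      have hk1 : (trunc (s + 1) A - trunc s A) i k ≠ 0 := left_ne_zero_of_mul hk
      have hk2 := hinv k j (right_ne_zero_of_mul hk)
      rw [Matrix.sub_apply] at hk1
      simp only [trunc] at hk1
      have hA0 : A i k ≠ 0 := by
        intro h0
        apply hk1
        simp [h0]
      have hki : k ≤ i := by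
        by_contra hcon
        exact hA0 (hA i k (not_le.mp hcon))
      have hki' : (k : ℕ) / 2 ^ s ≤ (i : ℕ) / 2 ^ s := Nat.div_le_div_right hki
      have hne1 : (i : ℕ) / 2 ^ s ≠ (k : ℕ) / 2 ^ s := by
        intro h0
        apply hk1
        have h2 : (i : ℕ) / 2 ^ (s + 1) = (k : ℕ) / 2 ^ (s + 1) := by
          rw [pow_succ, ← Nat.div_div_eq_div_mul, ← Nat.div_div_eq_div_mul, h0]
        rw [if_pos h0, if_pos h2, sub_self]
      have heq1 : (i : ℕ) / 2 ^ (s + 1) = (k : ℕ) / 2 ^ (s + 1) := by
        by_contra h0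
        apply hk1
        rw [if_neg h0, if_neg hne1, sub_self]
      rw [pow_succ, ← Nat.div_div_eq_div_mul, ← Nat.div_div_eq_div_mul] at heq1
      constructor
      · rw [mem_filter]
        refine ⟨mem_univ _, ?_⟩
        omega
      · rw [mem_filter]
        intro h0
        have := h0.2
        omega
    · rw [Matrix.mul_assoc, Matrix.nonsing_inv_mul _ hunit, Matrix.mul_one]

lemma fac_lower {d : ℕ} (A : Matrix (Fin d) (Fin d) K) (hA : ∀ i j, i < j → A i j = 0)
    (hA' : ∀ i, A i i ≠ 0) (s : ℕ) (hs : d ≤ 2 ^ s) : Fac (s + 1) A := by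
  have h := fac_trunc A hA hA' s
  have : trunc s A = A := by
    ext i j
    unfold trunc
    rw [if_pos]
    rw [Nat.div_eq_of_lt (i.2.trans_le hs), Nat.div_eq_of_lt (j.2.trans_le hs)]
  rwa [this] at h

open Polynomial in
/-- LU decomposition of the Vandermonde matrix. -/
lemma vandermonde_eq {d : ℕ} (v : Fin d → K) (hv : Function.Injective v) :
    ∃ L U : Matrix (Fin d) (Fin d) K, Matrix.vandermonde v = L * U ∧
      (∀ i j, i < j → L i j = 0) ∧ (∀ i, L i i ≠ 0) ∧
      (∀ i j, i < j → Uᵀ i j = 0) ∧ (∀ i, Uᵀ i i ≠ 0) := by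
  -- Newton polynomials
  set P : Fin d → K[X] := fun j => ∏ k ∈ univ.filter (fun k => k < j), (X - C (v k)) with hP
  have hmonic : ∀ j, (P j).Monic := fun j => monic_prod_of_monic _ _ fun k _ => monic_X_sub_C _
  have hdeg : ∀ j, (P j).natDegree = j := by
    intro j
    rw [hP]
    simp only
    rw [natDegree_prod_of_monic _ _ fun k _ => monic_X_sub_C _]
    simp only [natDegree_X_sub_C, sum_const, smul_eq_mul, mul_one]
    have h0 : (univ.filter fun k => k < j) = Finset.Iio j := by
      ext k
      simp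
    rw [h0, Fin.card_Iio]
  set Cm : Matrix (Fin d) (Fin d) K := fun y j => (P j).coeff y with hC
  set L : Matrix (Fin d) (Fin d) K := fun i j => (P j).eval (v i) with hL
  have hVC : Matrix.vandermonde v * Cm = L := by
    ext i j
    rw [Matrix.mul_apply, hL]
    simp only [Matrix.vandermonde_apply, hC]
    rw [Polynomial.eval_eq_sum_range' (n := d) (by rw [hdeg]; exact j.2)]
    rw [Finset.sum_range]
    refine Finset.sum_congr rfl fun y _ => ?_
    rw [mul_comm]
  have hup : Cm.IsUpperTriangular := by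
    intro i j hij
    have hij' : j < i := hij
    exact Polynomial.coeff_eq_zero_of_natDegree_lt (by rw [hdeg]; exact hij')
  have hdet : Cm.det = 1 := by
    rw [Matrix.det_of_isUpperTriangular hup]
    refine Finset.prod_eq_one fun i _ => ?_
    have := (hmonic i).coeff_natDegree
    rwa [hdeg] at this
  have hunit : IsUnit Cm.det := by rw [hdet]; exact isUnit_one
  let _ : Invertible Cm := Matrix.invertibleOfIsUnitDet _ hunit
  have hinvup : (Cm⁻¹).IsUpperTriangular := Matrix.blockTriangular_inv_of_blockTriangular hup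
  refine ⟨L, Cm⁻¹, ?_, ?_, ?_, ?_, ?_⟩
  · rw [← hVC, Matrix.mul_assoc, Matrix.mul_nonsing_inv _ hunit, Matrix.mul_one]
  · intro i j hij
    rw [hL, hP]
    simp only
    rw [Polynomial.eval_prod]
    refine Finset.prod_eq_zero (i := i) ?_ ?_
    · rw [mem_filter]; exact ⟨mem_univ _, hij⟩
    · simp
  · intro i
    rw [hL, hP]
    simp only
    rw [Polynomial.eval_prod, Finset.prod_ne_zero_iff]
    intro k hk
    rw [mem_filter] at hk
    simp only [eval_sub, eval_X, eval_C]
    intro h0
    have := hv (sub_eq_zero.mp h0)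
    exact absurd this (ne_of_gt hk.2)
  · intro i j hij
    exact hinvup hij
  · intro i
    have h1 : (Cm⁻¹).det ≠ 0 := by
      rw [Matrix.det_nonsing_inv, hdet]
      simp
    rw [Matrix.det_of_isUpperTriangular hinvup, Finset.prod_ne_zero_iff] at h1
    exact h1 i (mem_univ _)

/-- Kronecker products of Vandermonde matrices. -/
lemma approx_piKron_vandermonde {T : Type} [Fintype T] (d : T → ℕ) (v : ∀ t, Fin (d t) → K)
    (hv : ∀ t, Function.Injective (v t)) (η θ : ℝ) (hη : 0 ≤ η)
    (hη' : η ≤ 1 / 2) (hθ : 0 < θ) (hθ1 : θ ≤ 1) (D s : ℕ)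
    (hD : ∀ t, d t ≤ D) (hs : D ≤ 2 ^ s) :
    Approx (8 * (s + 1) * (∏ t, (d t : ℝ)) * Real.exp (-(η ^ 2) * Fintype.card T))
      (((θ ^ (-(2 * η)) * (1 + θ * D)) ^ (Fintype.card T)) ^ (2 * (s + 1)))
      (piKron fun t => Matrix.vandermonde (v t)) := by
  choose L U h1 h2 h3 h4 h5 using fun t => vandermonde_eq (v t) (hv t)
  have hV : (piKron fun t => Matrix.vandermonde (v t)) = piKron L * piKron U := by
    rw [← piKron_mul]
    congr 1
    funext t
    exact h1 t
  have hD' : ∀ t, (Fintype.card (Fin (d t)) : ℝ) ≤ (D : ℝ) := by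
    intro t
    rw [Fintype.card_fin]
    exact_mod_cast hD t
  have ht : 0 ≤ (θ ^ (-(2 * η)) * (1 + θ * D)) ^ (Fintype.card T) := by
    have := Real.rpow_nonneg hθ.le (-(2 * η))
    positivity
  have hLa := approx_piKron_Fac η θ D hη hη' hθ hθ1 (by positivity) hD' (s + 1) L
    fun t => fac_lower (L t) (h2 t) (h3 t) s ((hD t).trans hs)
  have hUa := (approx_piKron_Fac η θ D hη hη' hθ hθ1 (by positivity) hD' (s + 1)
    (fun t => (U t)ᵀ)
    fun t => fac_lower (U t)ᵀ (h4 t) (h5 t) s ((hD t).trans hs)).transpose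
  rw [piKron_transpose] at hUa
  simp only [transpose_transpose] at hUa
  rw [hV]
  refine (hLa.mul (pow_nonneg ht _) (pow_nonneg ht _) hUa).mono ?_ ?_
  · rw [Fintype.card_pi]
    simp only [Fintype.card_fin]
    push_cast
    ring_nf
    exact le_refl _
  · rw [← pow_add]
    ring_nf
    exact le_refl _

end Pool.Agent.H85.Rigid
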